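import Pool.Agent.H31.Leo.RankOne

set_option autoImplicit false

namespace Pool.Agent.H31.Leo

open Filter Topology NumberField

theorem rank_rat : Units.rank ℚ = 0 := by
  unfold Units.rank
  rw [Fintype.card_unique]

theorem real_contra (β x y : ℝ) (hx : x ^ 3 = β * x ^ 2 + -(β + 1) * x + 1)
    (hy : y ^ 3 = β * y ^ 2 + -(β + 1) * y + 1) (hxy : x ≠ y)
    (hβ : (β ^ 2 - 3 * β - 1) ^ 2 - 32 < 0) : False := by
  have h1 : (x - y) * (x ^ 2 + x * y + y ^ 2 - β * (x + y) + (β + 1)) = 0 := by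
    linear_combination hx - hy
  have h2 : x ^ 2 + x * y + y ^ 2 - β * (x + y) + (β + 1) = 0 := by
    rcases mul_eq_zero.1 h1 with h | h
    · exact absurd (sub_eq_zero.1 h) hxy
    · exact h
  obtain ⟨z, hz⟩ : ∃ z : ℝ, z = β - x - y := ⟨_, rfl⟩
  have e1 : x + y + z = β := by rw [hz]; ring
  have e2 : x * y + y * z + z * x = β + 1 := by rw [hz]; linear_combination -h2
  have e3 : x * y * z = 1 := by
    rw [hz]; linear_combination hx - x * h2
  have e4 : ((x - y) * (y - z) * (z - x)) ^ 2 =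
      (x + y + z) ^ 2 * (x * y + y * z + z * x) ^ 2 - 4 * (x * y + y * z + z * x) ^ 3 -
      4 * (x + y + z) ^ 3 * (x * y * z) +
      18 * (x + y + z) * (x * y + y * z + z * x) * (x * y * z) - 27 * (x * y * z) ^ 2 := by ring
  rw [e1, e2, e3] at e4
  have e5 : ((x - y) * (y - z) * (z - x)) ^ 2 = (β ^ 2 - 3 * β - 1) ^ 2 - 32 := by
    rw [e4]; ring
  have := sq_nonneg ((x - y) * (y - z) * (z - x))
  rw [e5] at this
  linarith

theorem ev_dat_zero {R : Type} [CommRing R] {b : R} {i : ℕ} (h : ev (dat i).t b = 0) :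
    b = 0 ∨ b = 1 ∨ b = 2 ∨ b = 3 ∨ b = 4 ∨ b = -1 ∨ b ^ 2 - 3 * b + 4 = 0 := by
  match i with
  | 0 =>
    simp only [dat, ev, List.foldr] at h
    left; push_cast at h; linear_combination h
  | 1 =>
    simp only [dat, ev, List.foldr] at h
    right; left; push_cast at h; linear_combination h
  | 2 =>
    simp only [dat, ev, List.foldr] at h
    right; right; left; push_cast at h; linear_combination -h
  | 3 =>
    simp only [dat, ev, List.foldr] at h
    right; right; right; left; push_cast at h; linear_combination -h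
  | 4 =>
    simp only [dat, ev, List.foldr] at h
    right; right; right; right; left; push_cast at h; linear_combination -h
  | 5 =>
    simp only [dat, ev, List.foldr] at h
    right; right; right; right; right; left; push_cast at h; linear_combination h
  | n + 6 =>
    simp only [dat, ev, List.foldr] at h
    right; right; right; right; right; right; push_cast at h; linear_combination h

variable {K : Type} [Field K] [NumberField K]

/-- **Leopoldt's conjecture at `2` and `3` for cubic fields with exceptional units.** -/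
theorem cubic (p : ℕ) [hp : Fact p.Prime] (h23 : p = 2 ∨ p = 3) (hdeg : Module.finrank ℚ K = 3)
    (E H : (𝓞 K)ˣ) (hEH : (E : 𝓞 K) + H = 1) : Leopoldt K p := by
  by_cases hr : Units.rank K ≤ 1
  · exact leopoldt_rank_le_one p hr
  have h1 := InfinitePlace.card_add_two_mul_card_eq_rank K
  have h2 := InfinitePlace.card_eq_nrRealPlaces_add_nrComplexPlaces K
  have hrk : Units.rank K = Fintype.card (InfinitePlace K) - 1 := rfl
  rw [hdeg] at h1
  have hc : InfinitePlace.nrComplexPlaces K = 0 := by omega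
  have hr2 : Units.rank K = 2 := by omega
  have htr : IsTotallyReal K := nrComplexPlaces_eq_zero_iff.1 hc
  set φ : 𝓞 ℚ →+* ℤ_[p] := (Int.castRingHom ℤ_[p]).comp Rat.ringOfIntegersEquiv.toRingHom with hφ
  have hu : ∀ u : (𝓞 ℚ)ˣ, (u : 𝓞 ℚ) = 1 ∨ (u : 𝓞 ℚ) = -1 := units_k h23 rank_rat φ
  obtain ⟨E', H', hEH', hg, -, hN⟩ := normalise hdeg hu E H hEH
  rcases hN with ⟨hN, hN'⟩ | ⟨hN, hN'⟩
  swap
  · exact leopoldt_of_pair p hr2 E' H' (typeB h23 φ (phi_inj φ) E' H' hEH' hg hN hN')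
  obtain ⟨b, hb, himp⟩ := typeA h23 φ (phi_inj φ) E' H' hEH' hg hN hN'
  by_cases hz : ∀ i : ℕ, ev (dat i).t b ≠ 0
  · exact leopoldt_of_pair p hr2 E' H' (himp hz)
  exfalso
  push Not at hz
  obtain ⟨i, hi⟩ := hz
  -- two real embeddings
  have hcard : 1 < Fintype.card (K →+* ℂ) := by
    rw [Embeddings.card, hdeg]; norm_num
  obtain ⟨σ₁, σ₂, hσ⟩ := Fintype.exists_pair_of_one_lt_card hcard
  have hreal : ∀ σ : K →+* ℂ, ComplexEmbedding.IsReal σ := fun σ =>
    InfinitePlace.isReal_of_mk_isReal (htr.isReal _)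
  set ρ₁ := (hreal σ₁).embedding with hρ₁
  set ρ₂ := (hreal σ₂).embedding with hρ₂
  set x : ℝ := ρ₁ ((E' : 𝓞 K) : K) with hx
  set y : ℝ := ρ₂ ((E' : 𝓞 K) : K) with hy
  set β : ℝ := ((b : ℚ) : ℝ) with hβ
  have hK : ((E' : 𝓞 K) : K) ^ 3 = algebraMap ℚ K (b : ℚ) * ((E' : 𝓞 K) : K) ^ 2 +
      -(algebraMap ℚ K (b : ℚ) + 1) * ((E' : 𝓞 K) : K) + 1 := by
    have := congrArg (fun t : 𝓞 K => (t : K)) hb
    simp only [map_add, map_mul, map_pow, map_neg, map_one] at this
    exact this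
  have hroot : ∀ ρ : K →+* ℝ, (ρ ((E' : 𝓞 K) : K)) ^ 3 = β * (ρ ((E' : 𝓞 K) : K)) ^ 2 +
      -(β + 1) * (ρ ((E' : 𝓞 K) : K)) + 1 := by
    intro ρ
    have h3 := congrArg ρ hK
    have h4 : ρ (algebraMap ℚ K (b : ℚ)) = β := by
      rw [eq_ratCast, map_ratCast]
    simp only [map_add, map_mul, map_pow, map_neg, map_one, h4] at h3
    exact h3
  have hxy : x ≠ y := by
    intro h
    apply hσ
    have h3 : σ₁ ((E' : 𝓞 K) : K) = σ₂ ((E' : 𝓞 K) : K) := by
      have h4 : ((x : ℝ) : ℂ) = σ₁ ((E' : 𝓞 K) : K) := (hreal σ₁).coe_embedding_apply _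
      have h5 : ((y : ℝ) : ℂ) = σ₂ ((E' : 𝓞 K) : K) := (hreal σ₂).coe_embedding_apply _
      rw [← h4, ← h5, h]
    have htop : Algebra.adjoin ℚ {((E' : 𝓞 K) : K)} = ⊤ := by
      rw [← IntermediateField.adjoin_simple_toSubalgebra_of_isAlgebraic (isInt (k := ℚ) (E' : 𝓞 K)).isAlgebraic,
        hg.gen]
      rfl
    have h4 : σ₁.toRatAlgHom = σ₂.toRatAlgHom := by
      apply AlgHom.ext_of_adjoin_eq_top htop
      intro t ht
      rw [Set.mem_singleton_iff] at ht
      rw [ht]
      exact h3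
    ext t
    exact congrArg (fun f : K →ₐ[ℚ] ℂ => f t) h4
  have key : ∀ q : ℚ, algebraMap (𝓞 ℚ) ℚ b = q → β = (q : ℝ) := fun q hq => by
    rw [hβ]; exact congrArg _ hq
  have hx' := hroot ρ₁
  have hy' := hroot ρ₂
  rcases ev_dat_zero hi with h | h | h | h | h | h | h
  · refine real_contra β x y hx' hy' hxy ?_
    rw [key 0 (by rw [h, map_zero])]; norm_num
  · refine real_contra β x y hx' hy' hxy ?_
    rw [key 1 (by rw [h, map_one])]; norm_num
  · refine real_contra β x y hx' hy' hxy ?_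
    rw [key 2 (by rw [h, map_ofNat])]; norm_num
  · refine real_contra β x y hx' hy' hxy ?_
    rw [key 3 (by rw [h, map_ofNat])]; norm_num
  · refine real_contra β x y hx' hy' hxy ?_
    rw [key 4 (by rw [h, map_ofNat])]; norm_num
  · refine real_contra β x y hx' hy' hxy ?_
    rw [key (-1) (by rw [h, map_neg, map_one])]; norm_num
  · have h3 : (algebraMap (𝓞 ℚ) ℚ b) ^ 2 - 3 * (algebraMap (𝓞 ℚ) ℚ b) + 4 = 0 := by
      have := congrArg (algebraMap (𝓞 ℚ) ℚ) h
      rw [map_add, map_sub, map_pow, map_mul, map_ofNat, map_ofNat, map_zero] at this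
      exact this
    nlinarith [sq_nonneg ((algebraMap (𝓞 ℚ) ℚ b) - 3 / 2)]

end Pool.Agent.H31.Leo
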