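import Mathlib

/-!
# Leopoldt's conjecture: criteria

`padic_indep_of_int_indep`, `exists_rel` and `leopoldt_of` are taken from the results library
(modules `R_seed8.H637R2.Leo.Crit` and `R_seed8.H33R4.PartB`).
-/

set_option autoImplicit false

namespace Pool.Agent.H31.Leo

open Polynomial Finset NumberField Filter Topology

/-- Leopoldt's conjecture for the number field `K` and the prime `p`: units of `K` congruent to `1`
at all primes above `p` which are multiplicatively independent over `ℤ` stay independent over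
`ℤ_p` in the product of the completions above `p`. -/
def Leopoldt (K : Type) [Field K] [NumberField K] (p : ℕ) [Fact p.Prime] : Prop :=
  ∀ (n : ℕ) (ε : Fin n → (𝓞 K)ˣ),
    (∀ i, ((ε i : 𝓞 K) - 1) ∈ (Ideal.span {((p : ℕ) : 𝓞 K)}).radical) →
    (∀ c : Fin n → ℤ, ∏ i, ε i ^ c i = 1 → c = 0) →
    ∀ (a : Fin n → PadicInt p) (m : ℕ → Fin n → ℤ),
      (∀ i, Tendsto (fun k => ((m k i : ℤ) : PadicInt p)) atTop (𝓝 (a i))) →
      (∀ N : ℕ, ∀ᶠ k in atTop,
        ((p : ℕ) : 𝓞 K) ^ N ∣ (((∏ i, ε i ^ m k i : (𝓞 K)ˣ) : 𝓞 K) - 1)) →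
      a = 0

lemma prod_zpow_sum {ι G : Type*} [CommGroup G] (s : Finset ι) (x : G) (f : ι → ℤ) :
    ∏ i ∈ s, x ^ f i = x ^ (∑ i ∈ s, f i) := by
  classical
  induction s using Finset.induction_on with
  | empty => simp
  | insert a s ha ih => rw [Finset.prod_insert ha, Finset.sum_insert ha, zpow_add, ih]

/-- a `ℤ`-independent family of integer vectors is independent over `ℤ_p` -/
lemma padic_indep_of_int_indep {s n : ℕ} (p : ℕ) [Fact p.Prime] (B : Fin s → Fin n → ℤ)
    (hB : ∀ c : Fin s → ℤ, (∀ j, ∑ i, c i * B i j = 0) → c = 0)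
    (a : Fin s → ℤ_[p]) (ha : ∀ j, ∑ i, a i * (B i j : ℤ_[p]) = 0) : a = 0 := by
  have h1 : LinearIndependent ℤ (fun i => fun j => (B i j : ℚ)) := by
    rw [Fintype.linearIndependent_iff]
    intro c hc
    have h2 : c = 0 := by
      apply hB
      intro j
      have h3 := congrFun hc j
      rw [Finset.sum_apply] at h3
      simp only [Pi.smul_apply, zsmul_eq_mul, Pi.zero_apply] at h3
      exact_mod_cast h3
    intro i
    rw [h2]; rfl
  have h2 : LinearIndependent ℚ (fun i => fun j => (B i j : ℚ)) :=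
    (LinearIndependent.iff_fractionRing ℤ ℚ).1 h1
  set f : (Fin s → ℚ) →ₗ[ℚ] (Fin n → ℚ) := Fintype.linearCombination ℚ (fun i => fun j => (B i j : ℚ)) with hf
  have h3 : LinearMap.ker f = ⊥ := by
    rw [Fintype.linearIndependent_iff] at h2
    rw [LinearMap.ker_eq_bot']
    intro c hc
    rw [hf, Fintype.linearCombination_apply] at hc
    exact funext (h2 c hc)
  obtain ⟨g, hg⟩ := LinearMap.exists_leftInverse_of_injective f h3
  -- matrix form
  have h4 : ∀ i l, ∑ j, (B i j : ℚ) * g (Pi.single j 1) l = if i = l then 1 else 0 := by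
    intro i l
    have h5 := congrFun (congrArg (fun φ => φ (Pi.single i (1 : ℚ))) hg) l
    simp only [LinearMap.comp_apply, LinearMap.id_apply] at h5
    have h6 : f (Pi.single i (1 : ℚ)) = ∑ j, (B i j : ℚ) • (Pi.single j (1 : ℚ) : Fin n → ℚ) := by
      rw [hf, Fintype.linearCombination_apply_single, one_smul]
      funext k
      rw [Finset.sum_apply]
      simp [Pi.single_apply]
    rw [h6, map_sum, Finset.sum_apply] at h5
    simp only [map_smul, Pi.smul_apply, smul_eq_mul] at h5
    rw [h5, Pi.single_apply]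
    by_cases h : i = l
    · simp [h]
    · simp [h, Ne.symm h]
  set φ := algebraMap ℤ_[p] ℚ_[p] with hφ
  have h5 : ∀ l, φ (a l) = 0 := by
    intro l
    have h6 : ∑ j, (∑ i, φ (a i) * (B i j : ℚ_[p])) * ((g (Pi.single j 1) l : ℚ) : ℚ_[p]) = 0 := by
      apply Finset.sum_eq_zero
      intro j _
      have h7 := congrArg φ (ha j)
      rw [map_sum, map_zero] at h7
      rw [Finset.sum_congr rfl fun i _ => show φ (a i) * (B i j : ℚ_[p]) = φ (a i * (B i j : ℤ_[p])) by
        rw [map_mul, map_intCast], h7, zero_mul]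
    simp only [Finset.sum_mul] at h6
    rw [Finset.sum_comm] at h6
    have h8 : ∀ i, ∑ j, φ (a i) * (B i j : ℚ_[p]) * ((g (Pi.single j 1) l : ℚ) : ℚ_[p])
        = φ (a i) * (if i = l then 1 else 0) := by
      intro i
      have h9 := congrArg (fun x : ℚ => (x : ℚ_[p])) (h4 i l)
      push_cast at h9
      have h10 : (if i = l then (1 : ℚ_[p]) else 0) = (((if i = l then (1 : ℚ) else 0) : ℚ) : ℚ_[p]) := by
        split_ifs <;> simp
      rw [h10, ← h9, Finset.mul_sum]
      refine Finset.sum_congr rfl fun j _ => by ring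
    rw [Finset.sum_congr rfl fun i _ => h8 i] at h6
    simpa using h6
  funext l
  exact (IsFractionRing.injective ℤ_[p] ℚ_[p]) (by rw [← hφ, h5 l]; simp)

section units

variable {K : Type} [Field K] [NumberField K]

theorem exists_rel {r : ℕ} (hr : Units.rank K = r) (E : Fin r → (𝓞 K)ˣ)
    (hE : ∀ c : Fin r → ℤ, ∏ i, E i ^ c i = 1 → c = 0) (ε : (𝓞 K)ˣ) :
    ∃ (T : ℤ) (B : Fin r → ℤ), T ≠ 0 ∧ ε ^ T = ∏ i, E i ^ B i := by
  set v : Option (Fin r) → Additive (𝓞 K)ˣ := fun o => o.elim (Additive.ofMul ε)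
    (fun i => Additive.ofMul (E i)) with hv
  have h1 : ¬ LinearIndependent ℤ v := by
    intro h
    have h2 := h.fintype_card_le_finrank
    rw [Units.finrank_eq, Fintype.card_option, Fintype.card_fin, hr] at h2
    omega
  rw [Fintype.not_linearIndependent_iff] at h1
  obtain ⟨c, hc, i0, hi0⟩ := h1
  have h3 : ε ^ (c none) * ∏ i, E i ^ (c (some i)) = 1 := by
    rw [Fintype.sum_option] at hc
    have h4 := congrArg Additive.toMul hc
    rw [toMul_add, toMul_sum, toMul_zero] at h4
    exact h4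
  refine ⟨c none, fun i => -c (some i), ?_, ?_⟩
  · intro h0
    rw [h0, zpow_zero, one_mul] at h3
    have h5 := hE _ h3
    cases i0 with
    | none => exact hi0 h0
    | some i => exact hi0 (congrFun h5 i)
  · rw [mul_eq_one_iff_eq_inv] at h3
    rw [h3, ← Finset.prod_inv_distrib]
    refine Finset.prod_congr rfl fun i _ => ?_
    rw [zpow_neg]

/-- the criterion -/
theorem leopoldt_of {r : ℕ} (hr : Units.rank K = r) (p : ℕ) [Fact p.Prime] (E : Fin r → (𝓞 K)ˣ)
    (key : ∀ (c : ℕ → Fin r → ℤ) (w : Fin r → ℤ_[p]),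
      (∀ j, Tendsto (fun k => ((c k j : ℤ) : ℤ_[p])) atTop (𝓝 (w j))) →
      (∀ N : ℕ, ∀ᶠ k in atTop,
        ((p : ℕ) : 𝓞 K) ^ N ∣ (((∏ j, E j ^ c k j : (𝓞 K)ˣ) : 𝓞 K) - 1)) → w = 0) :
    Leopoldt K p := by
  have hE : ∀ c : Fin r → ℤ, ∏ i, E i ^ c i = 1 → c = 0 := by
    intro c hc
    have h1 := key (fun _ => c) (fun j => ((c j : ℤ) : ℤ_[p])) (fun j => tendsto_const_nhds)
      (fun N => Eventually.of_forall fun k => by rw [hc]; simp)
    funext j
    have h2 : ((c j : ℤ) : ℤ_[p]) = 0 := congrFun h1 j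
    show c j = 0
    exact_mod_cast h2
  intro s ε _ hε a m hlim hm
  choose T B hT hrel using fun i => exists_rel hr E hE (ε i)
  -- common exponent
  set T0 : ℤ := ∏ i, T i with hT0
  have hT0' : T0 ≠ 0 := Finset.prod_ne_zero_iff.2 fun i _ => hT i
  set B' : Fin s → Fin r → ℤ := fun i j => (∏ l ∈ Finset.univ.erase i, T l) * B i j with hB'
  have hrel' : ∀ i, ε i ^ T0 = ∏ j, E j ^ B' i j := by
    intro i
    rw [hT0, ← Finset.mul_prod_erase _ _ (Finset.mem_univ i), zpow_mul, hrel, ← Finset.prod_zpow]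
    refine Finset.prod_congr rfl fun j _ => ?_
    rw [← zpow_mul]
    congr 1
    rw [hB']; ring
  have hcomb : ∀ c : Fin s → ℤ, (∏ i, ε i ^ c i) ^ T0 = ∏ j, E j ^ (∑ i, c i * B' i j) := by
    intro c
    rw [← Finset.prod_zpow]
    have h1 : ∀ i, (ε i ^ c i) ^ T0 = ∏ j, E j ^ (c i * B' i j) := by
      intro i
      rw [← zpow_mul, mul_comm, zpow_mul, hrel', ← Finset.prod_zpow]
      refine Finset.prod_congr rfl fun j _ => ?_
      rw [← zpow_mul, mul_comm]
    rw [Finset.prod_congr rfl fun i _ => h1 i, Finset.prod_comm]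
    refine Finset.prod_congr rfl fun j _ => ?_
    rw [prod_zpow_sum]
  apply padic_indep_of_int_indep p B'
  · -- independence over ℤ
    intro c hc
    have h1 : ∏ i, ε i ^ (T0 * c i) = 1 := by
      have h2 : (∏ i, ε i ^ c i) ^ T0 = 1 := by
        rw [hcomb c]
        apply Finset.prod_eq_one
        intro j _
        rw [hc j, zpow_zero]
      rw [← h2, ← Finset.prod_zpow]
      refine Finset.prod_congr rfl fun i _ => ?_
      rw [← zpow_mul, mul_comm]
    have h3 := hε _ h1
    funext i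
    have h4 := congrFun h3 i
    simp only [Pi.zero_apply] at h4
    rcases mul_eq_zero.1 h4 with h | h
    · exact absurd h hT0'
    · exact h
  · -- the p-adic relation
    have h1 := key (fun k j => ∑ i, m k i * B' i j) (fun j => ∑ i, a i * (B' i j : ℤ_[p]))
      (fun j => by
        push_cast
        exact tendsto_finsetSum _ fun i _ => Tendsto.mul (hlim i) tendsto_const_nhds)
      (fun N => by
        filter_upwards [hm N] with k hk
        rw [← hcomb]
        obtain ⟨y, hy⟩ := hk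
        -- powers of elements congruent to one
        have hz : ∀ (v : (𝓞 K)ˣ) (n : ℤ), ((p : ℕ) : 𝓞 K) ^ N ∣ ((v : 𝓞 K) - 1) →
            ((p : ℕ) : 𝓞 K) ^ N ∣ (((v ^ n : (𝓞 K)ˣ) : 𝓞 K) - 1) := by
          intro v n hv
          obtain ⟨k, rfl | rfl⟩ := n.eq_nat_or_neg
          · rw [zpow_natCast, Units.val_pow_eq_pow_val]
            exact hv.trans (sub_one_dvd_pow_sub_one (v : 𝓞 K) k)
          · rw [zpow_neg, zpow_natCast]
            have h5 : (((v ^ k)⁻¹ : (𝓞 K)ˣ) : 𝓞 K) - 1 =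
                -((((v ^ k)⁻¹ : (𝓞 K)ˣ) : 𝓞 K) * (((v ^ k : (𝓞 K)ˣ) : 𝓞 K) - 1)) := by
              rw [mul_sub, mul_one, Units.inv_mul]; ring
            rw [h5]
            refine (dvd_neg).mpr (Dvd.dvd.mul_left ?_ _)
            rw [Units.val_pow_eq_pow_val]
            exact hv.trans (sub_one_dvd_pow_sub_one (v : 𝓞 K) k)
        exact hz _ _ ⟨y, hy⟩)
    intro j
    exact congrFun h1 j

end units

end Pool.Agent.H31.Leo
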