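import Pool.Agent.H31.Leo.Transfer
import Pool.Agent.H31.Leo.Crit

set_option autoImplicit false

namespace Pool.Agent.H31.Leo

open Filter Topology NumberField

/-! ### roots of unity in `ℤ_2` and `ℤ_3` -/

section tors

variable {p : ℕ} [hp : Fact p.Prime]

theorem not_p_dvd_one : ¬ (p : ℤ_[p]) ∣ 1 := fun h => prime_p.not_unit (isUnit_of_dvd_one h)

/-- if `y ≡ 1` modulo `p` and `n` is prime to `p` then `y^n = 1` implies `y = 1` -/
theorem eq_one_of_coprime {y : ℤ_[p]} (hy : (p : ℤ_[p]) ∣ y - 1) {n : ℕ} (hn : ¬ p ∣ n)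
    (h : y ^ n = 1) : y = 1 := by
  have h1 : (y - 1) * (∑ i ∈ Finset.range n, y ^ i) = 0 := by
    rw [mul_geom_sum, h, sub_self]
  rcases mul_eq_zero.1 h1 with h2 | h2
  · exact sub_eq_zero.1 h2
  · exfalso
    have h3 : PadicInt.toZMod y = 1 := by
      have h4 : PadicInt.toZMod (y - 1) = 0 := by
        rw [← RingHom.mem_ker, PadicInt.ker_toZMod, PadicInt.maximalIdeal_eq_span_p,
          Ideal.mem_span_singleton]
        exact hy
      rw [map_sub, map_one, sub_eq_zero] at h4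
      exact h4
    have h5 := congrArg PadicInt.toZMod h2
    rw [map_sum, map_zero] at h5
    simp only [map_pow, h3, one_pow, Finset.sum_const, Finset.card_range, nsmul_eq_mul, mul_one] at h5
    exact hn ((ZMod.natCast_eq_zero_iff _ _).1 h5)

theorem tors2 (n : ℕ) : ∀ t : ℤ_[2], 0 < n → (1 + 4 * t) ^ n = 1 → t = 0 := by
  have h2 : ((2 : ℕ) : ℤ_[2]) = 2 := by norm_num
  induction n using Nat.strong_induction_on with
  | _ n ih =>
    intro t hn h
    by_cases hd : 2 ∣ n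
    · obtain ⟨m, rfl⟩ := hd
      have h1 : (1 + 4 * (2 * t * (1 + 2 * t))) ^ m = 1 := by
        have : 1 + 4 * (2 * t * (1 + 2 * t)) = (1 + 4 * t) ^ 2 := by ring
        rw [this, ← pow_mul, h]
      have h3 := ih m (by omega) _ (by omega) h1
      rcases mul_eq_zero.1 h3 with h4 | h4
      · rcases mul_eq_zero.1 h4 with h5 | h5
        · exact absurd (h2 ▸ h5 : ((2 : ℕ) : ℤ_[2]) = 0) p_ne
        · exact h5
      · exfalso
        apply not_p_dvd_one (p := 2)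
        rw [h2]
        exact ⟨-t, by linear_combination h4⟩
    · have h1 := eq_one_of_coprime (p := 2) (y := 1 + 4 * t) ⟨2 * t, by rw [h2]; ring⟩ hd h
      have h3 : (4 : ℤ_[2]) * t = 0 := by linear_combination h1
      rcases mul_eq_zero.1 h3 with h4 | h4
      · exfalso
        have h5 : (2 : ℤ_[2]) * 2 = 0 := by linear_combination h4
        rcases mul_eq_zero.1 h5 with h6 | h6 <;>
        exact absurd (h2 ▸ h6 : ((2 : ℕ) : ℤ_[2]) = 0) p_ne
      · exact h4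

theorem tors3 (n : ℕ) : ∀ t : ℤ_[3], 0 < n → (1 + 3 * t) ^ n = 1 → t = 0 := by
  have h2 : ((3 : ℕ) : ℤ_[3]) = 3 := by norm_num
  induction n using Nat.strong_induction_on with
  | _ n ih =>
    intro t hn h
    by_cases hd : 3 ∣ n
    · obtain ⟨m, rfl⟩ := hd
      have h1 : (1 + 3 * (3 * t * (1 + 3 * t + 3 * t ^ 2))) ^ m = 1 := by
        have : 1 + 3 * (3 * t * (1 + 3 * t + 3 * t ^ 2)) = (1 + 3 * t) ^ 3 := by ring
        rw [this, ← pow_mul, h]
      have h3 := ih m (by omega) _ (by omega) h1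
      rcases mul_eq_zero.1 h3 with h4 | h4
      · rcases mul_eq_zero.1 h4 with h5 | h5
        · exact absurd (h2 ▸ h5 : ((3 : ℕ) : ℤ_[3]) = 0) p_ne
        · exact h5
      · exfalso
        apply not_p_dvd_one (p := 3)
        rw [h2]
        exact ⟨-(t + t ^ 2), by linear_combination h4⟩
    · have h1 := eq_one_of_coprime (p := 3) (y := 1 + 3 * t) ⟨t, by rw [h2]; ring⟩ hd h
      have h3 : (3 : ℤ_[3]) * t = 0 := by linear_combination h1
      rcases mul_eq_zero.1 h3 with h4 | h4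
      · exact absurd (h2 ▸ h4 : ((3 : ℕ) : ℤ_[3]) = 0) p_ne
      · exact h4

theorem sq_of_tors (h23 : p = 2 ∨ p = 3) {x : ℤ_[p]} {n : ℕ} (hn : 0 < n) (h : x ^ n = 1) :
    x = 1 ∨ x = -1 := by
  suffices hx : x ^ 2 = 1 by
    have h1 : (x - 1) * (x + 1) = 0 := by linear_combination hx
    rcases mul_eq_zero.1 h1 with h2 | h2
    · left; linear_combination h2
    · right; linear_combination h2
  have hnd : ¬ (p : ℤ_[p]) ∣ x := by
    intro hd
    apply not_p_dvd_one (p := p)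
    rw [← h]
    exact dvd_pow hd hn.ne'
  obtain ⟨r, hr, hxr⟩ := exists_CI (p := p) 1 x
  rw [CI_iff, pow_one] at hxr
  obtain ⟨s, hs⟩ := hxr
  rcases h23 with rfl | rfl
  · have h2 : ((2 : ℕ) : ℤ_[2]) = 2 := by norm_num
    have hr' : r = 0 ∨ r = 1 := by
      rw [pow_one] at hr; omega
    rcases hr' with rfl | rfl
    · exact absurd ⟨s, by rw [← hs]; simp⟩ hnd
    · have hx : x = 1 + 2 * s := by
        rw [h2] at hs; push_cast at hs; linear_combination hs
      have h3 : (1 + 4 * (s + s ^ 2)) ^ n = 1 := by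
        have : (1 + 4 * (s + s ^ 2) : ℤ_[2]) = x ^ 2 := by rw [hx]; ring
        rw [this, ← pow_mul, mul_comm, pow_mul, h, one_pow]
      have h4 := tors2 n _ hn h3
      rw [hx]; linear_combination 4 * h4
  · have h2 : ((3 : ℕ) : ℤ_[3]) = 3 := by norm_num
    have hr' : r = 0 ∨ r = 1 ∨ r = 2 := by
      rw [pow_one] at hr; omega
    rcases hr' with rfl | rfl | rfl
    · exact absurd ⟨s, by rw [← hs]; simp⟩ hnd
    · have hx : x = 1 + 3 * s := by
        rw [h2] at hs; push_cast at hs; linear_combination hs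
      have h3 : (1 + 3 * (2 * s + 3 * s ^ 2)) ^ n = 1 := by
        have : (1 + 3 * (2 * s + 3 * s ^ 2) : ℤ_[3]) = x ^ 2 := by rw [hx]; ring
        rw [this, ← pow_mul, mul_comm, pow_mul, h, one_pow]
      have h4 := tors3 n _ hn h3
      rw [hx]; linear_combination 3 * h4
    · have hx : x = 2 + 3 * s := by
        rw [h2] at hs; push_cast at hs; linear_combination hs
      have h3 : (1 + 3 * (1 + 4 * s + 3 * s ^ 2)) ^ n = 1 := by
        have : (1 + 3 * (1 + 4 * s + 3 * s ^ 2) : ℤ_[3]) = x ^ 2 := by rw [hx]; ring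
        rw [this, ← pow_mul, mul_comm, pow_mul, h, one_pow]
      have h4 := tors3 n _ hn h3
      rw [hx]; linear_combination 3 * h4

end tors

section fields

variable {k K : Type} [Field k] [NumberField k] [Field K] [NumberField K] [Algebra k K]

theorem phi_inj {p : ℕ} [Fact p.Prime] (φ : 𝓞 k →+* ℤ_[p]) : Function.Injective φ := by
  rw [RingHom.injective_iff_ker_eq_bot]
  apply Ideal.eq_bot_of_comap_eq_bot (R := ℤ)
  rw [Ideal.comap, RingHom.ker_eq_comap_bot] at *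
  ext z
  simp only [Ideal.mem_bot]
  constructor
  · intro hz
    have h1 : φ (algebraMap ℤ (𝓞 k) z) = 0 := hz
    rw [eq_intCast, map_intCast] at h1
    exact_mod_cast h1
  · rintro rfl
    exact Submodule.zero_mem _

theorem units_k {p : ℕ} [Fact p.Prime] (h23 : p = 2 ∨ p = 3) (hk : Units.rank k = 0)
    (φ : 𝓞 k →+* ℤ_[p]) (u : (𝓞 k)ˣ) : (u : 𝓞 k) = 1 ∨ (u : 𝓞 k) = -1 := by
  obtain ⟨T, B, hT, hrel⟩ := exists_rel hk (fun i : Fin 0 => i.elim0)
    (fun c _ => funext fun i => i.elim0) u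
  simp only [Finset.univ_eq_empty, Finset.prod_empty] at hrel
  have h1 : u ^ T.natAbs = 1 := by
    rcases Int.natAbs_eq T with h | h
    · rw [h, zpow_natCast] at hrel; exact hrel
    · rw [h, zpow_neg, zpow_natCast, inv_eq_one] at hrel; exact hrel
  have h2 : (φ u) ^ T.natAbs = 1 := by
    rw [← map_pow, ← Units.val_pow_eq_pow_val, h1]; simp
  rcases sq_of_tors h23 (Int.natAbs_pos.2 hT) h2 with h3 | h3
  · left; exact phi_inj φ (by rw [h3, map_one])
  · right; exact phi_inj φ (by rw [h3, map_neg, map_one])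

theorem two_not_unit (H : (𝓞 K)ˣ) : (H : 𝓞 K) ≠ 2 := by
  intro h
  have h1 : ((H⁻¹ : (𝓞 K)ˣ) : 𝓞 K) * 2 = 1 := by rw [← h, Units.inv_mul]
  have h2 : (((H⁻¹ : (𝓞 K)ˣ) : 𝓞 K) : K) = algebraMap ℚ K (1 / 2) := by
    have h3 := congrArg (fun t : 𝓞 K => (t : K)) h1
    simp only [map_mul, map_one, map_ofNat] at h3
    rw [map_div₀, map_one, map_ofNat]
    field_simp
    exact h3
  have h3 : IsIntegral ℤ (algebraMap ℚ K (1 / 2)) := by
    rw [← h2]; exact RingOfIntegers.isIntegral_coe _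
  have h4 : IsIntegral ℤ (1 / 2 : ℚ) :=
    (isIntegral_algebraMap_iff (FaithfulSMul.algebraMap_injective ℚ K)).1 h3
  obtain ⟨z, hz⟩ := IsIntegrallyClosed.isIntegral_iff.mp h4
  have h5 : (2 * z : ℚ) = 1 := by
    have : (algebraMap ℤ ℚ) z = (z : ℚ) := rfl
    rw [this] at hz
    rw [hz]; norm_num
  have h6 : 2 * z = 1 := by exact_mod_cast h5
  omega

/-- exceptional units generate -/
theorem gen_of_exc (hdeg : Module.finrank k K = 3)
    (hu : ∀ u : (𝓞 k)ˣ, (u : 𝓞 k) = 1 ∨ (u : 𝓞 k) = -1) (E H : (𝓞 K)ˣ)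
    (hEH : (E : 𝓞 K) + H = 1) : Gen k (E : 𝓞 K) := by
  refine ⟨hdeg, ?_⟩
  have hpr : Nat.Prime (Module.finrank k K) := by rw [hdeg]; exact Nat.prime_three
  have := IntermediateField.isSimpleOrder_of_finrank_prime k K hpr
  rcases eq_bot_or_eq_top (IntermediateField.adjoin k {((E : 𝓞 K) : K)}) with h | h
  · exfalso
    have h1 : ((E : 𝓞 K) : K) ∈ IntermediateField.adjoin k {((E : 𝓞 K) : K)} :=
      IntermediateField.mem_adjoin_simple_self k _
    rw [h, IntermediateField.mem_bot] at h1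
    obtain ⟨x, hx⟩ := h1
    have hxi : IsIntegral ℤ x := by
      have h2 : IsIntegral ℤ (algebraMap k K x) := by rw [hx]; exact RingOfIntegers.isIntegral_coe _
      exact (isIntegral_algebraMap_iff (FaithfulSMul.algebraMap_injective k K)).1 h2
    have hx0 : x ≠ 0 := by
      rintro rfl
      rw [map_zero] at hx
      have h2 : (E : 𝓞 K) = 0 := RingOfIntegers.ext (by rw [← hx]; rfl)
      exact E.ne_zero h2
    have hyi : IsIntegral ℤ x⁻¹ := by
      have h2 : IsIntegral ℤ (algebraMap k K x⁻¹) := by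
        have h3 : algebraMap k K x⁻¹ = (((E⁻¹ : (𝓞 K)ˣ) : 𝓞 K) : K) := by
          rw [map_inv₀, hx]
          apply inv_eq_of_mul_eq_one_right
          have h4 : (E : 𝓞 K) * ((E⁻¹ : (𝓞 K)ˣ) : 𝓞 K) = 1 := Units.mul_inv E
          have h5 := congrArg (fun t : 𝓞 K => (t : K)) h4
          simpa using h5
        rw [h3]; exact RingOfIntegers.isIntegral_coe _
      exact (isIntegral_algebraMap_iff (FaithfulSMul.algebraMap_injective k K)).1 h2
    let u : (𝓞 k)ˣ := ⟨⟨x, hxi⟩, ⟨x⁻¹, hyi⟩,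
      RingOfIntegers.ext (mul_inv_cancel₀ hx0), RingOfIntegers.ext (inv_mul_cancel₀ hx0)⟩
    have hH : (H : 𝓞 K) = 1 - E := by rw [← hEH]; ring
    rcases hu u with h2 | h2
    · have h3 : x = 1 := congrArg (fun t : 𝓞 k => (t : k)) h2
      rw [h3, map_one] at hx
      have h4 : (E : 𝓞 K) = 1 := RingOfIntegers.ext (by rw [← hx]; rfl)
      rw [h4, sub_self] at hH
      exact H.ne_zero hH
    · have h3 : x = -1 := by
        have h4 : x = algebraMap (𝓞 k) k (-1) := congrArg (fun t : 𝓞 k => (t : k)) h2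
        rw [h4, map_neg, map_one]
      rw [h3, map_neg, map_one] at hx
      have h4 : (E : 𝓞 K) = -1 := RingOfIntegers.ext (by rw [← hx]; simp)
      rw [h4] at hH
      exact two_not_unit H (by rw [hH]; norm_num)
  · exact h

theorem norm_neg_one (hdeg : Module.finrank k K = 3) :
    RingOfIntegers.norm k (-1 : 𝓞 K) = -1 := by
  apply RingOfIntegers.ext
  rw [RingOfIntegers.coe_norm]
  have : ((-1 : 𝓞 K) : K) = algebraMap k K (-1) := by simp
  rw [this, Algebra.norm_algebraMap, hdeg]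
  norm_num

/-- **normalisation of exceptional units** -/
theorem normalise (hdeg : Module.finrank k K = 3)
    (hu : ∀ u : (𝓞 k)ˣ, (u : 𝓞 k) = 1 ∨ (u : 𝓞 k) = -1) (E H : (𝓞 K)ˣ)
    (hEH : (E : 𝓞 K) + H = 1) :
    ∃ E' H' : (𝓞 K)ˣ, (E' : 𝓞 K) + H' = 1 ∧ Gen k (E' : 𝓞 K) ∧
      (E' = E ∨ E' = E⁻¹ ∨ E' = H⁻¹) ∧
      ((RingOfIntegers.norm k (E' : 𝓞 K) = 1 ∧ RingOfIntegers.norm k (H' : 𝓞 K) = 1) ∨
      (RingOfIntegers.norm k (E' : 𝓞 K) = -1 ∧ RingOfIntegers.norm k (H' : 𝓞 K) = -1)) := by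
  have hn : ∀ U : (𝓞 K)ˣ, RingOfIntegers.norm k (U : 𝓞 K) = 1 ∨
      RingOfIntegers.norm k (U : 𝓞 K) = -1 := fun U => hu (Units.map (RingOfIntegers.norm k) U)
  have hinv : ∀ U : (𝓞 K)ˣ, RingOfIntegers.norm k (U : 𝓞 K) = 1 →
      RingOfIntegers.norm k ((U⁻¹ : (𝓞 K)ˣ) : 𝓞 K) = 1 := by
    intro U hU
    have h1 : RingOfIntegers.norm k ((U : 𝓞 K) * ((U⁻¹ : (𝓞 K)ˣ) : 𝓞 K)) = 1 := by
      rw [Units.mul_inv, map_one]
    rw [map_mul, hU, one_mul] at h1
    exact h1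
  -- the case of norms `1, -1`
  have key : ∀ U V : (𝓞 K)ˣ, (U : 𝓞 K) + V = 1 → RingOfIntegers.norm k (U : 𝓞 K) = 1 →
      RingOfIntegers.norm k (V : 𝓞 K) = -1 → ∃ V' : (𝓞 K)ˣ,
      ((U⁻¹ : (𝓞 K)ˣ) : 𝓞 K) + V' = 1 ∧ RingOfIntegers.norm k ((U⁻¹ : (𝓞 K)ˣ) : 𝓞 K) = 1 ∧
      RingOfIntegers.norm k (V' : 𝓞 K) = 1 := by
    intro U V hUV hU hV
    refine ⟨-(V * U⁻¹), ?_, hinv U hU, ?_⟩
    · push_cast
      have h1 : (U : 𝓞 K) * ((U⁻¹ : (𝓞 K)ˣ) : 𝓞 K) = 1 := Units.mul_inv U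
      have h2 : (V : 𝓞 K) = 1 - U := by rw [← hUV]; ring
      rw [h2]
      linear_combination h1
    · rw [Units.val_neg, neg_eq_neg_one_mul, map_mul, norm_neg_one hdeg, Units.val_mul, map_mul, hV,
        hinv U hU]
      norm_num
  rcases hn E with h1 | h1 <;> rcases hn H with h2 | h2
  · exact ⟨E, H, hEH, gen_of_exc hdeg hu E H hEH, Or.inl rfl, Or.inl ⟨h1, h2⟩⟩
  · obtain ⟨V', hV', h3, h4⟩ := key E H hEH h1 h2
    exact ⟨E⁻¹, V', hV', gen_of_exc hdeg hu _ _ hV', Or.inr (Or.inl rfl), Or.inl ⟨h3, h4⟩⟩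
  · obtain ⟨V', hV', h3, h4⟩ := key H E (by rw [add_comm]; exact hEH) h2 h1
    exact ⟨H⁻¹, V', hV', gen_of_exc hdeg hu _ _ hV', Or.inr (Or.inr rfl), Or.inl ⟨h3, h4⟩⟩
  · exact ⟨E, H, hEH, gen_of_exc hdeg hu E H hEH, Or.inl rfl, Or.inr ⟨h1, h2⟩⟩

end fields

end Pool.Agent.H31.Leo
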