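import Pool.Agent.H31.Leo.DataA

set_option autoImplicit false

namespace Pool.Agent.H31.Leo

/-- powers, computed quickly -/
def fpow {R : Type} [CommRing R] {b c d : R} (u : Cub R b c d) (n : ℕ) : Cub R b c d :=
  Nat.rec 1 (fun _ v => v * u) n

/-- coordinatewise division -/
def cdiv {b c d : ℤ} (u : Cub ℤ b c d) (n : ℤ) : Cub ℤ b c d := ⟨u.x / n, u.y / n, u.z / n⟩

/-- divisibility of the coordinates -/
def cdvd {b c d : ℤ} (u : Cub ℤ b c d) (n : ℤ) : Bool := u.x % n == 0 && u.y % n == 0 && u.z % n == 0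

/-- the relation used for `a ≡ r` modulo `64` -/
def cls2 (r : ℕ) : ℕ :=
  if r % 8 = 0 then 0 else if r % 16 = 4 then 4 else if r % 16 = 12 then 6 else if r % 4 = 2 then 2
  else if r % 8 = 3 then 3 else if r % 16 = 15 then 5 else if r % 16 = 7 then 6 else 1

/-- the relation used for `a ≡ r` modulo `81` -/
def cls3 (r : ℕ) : ℕ :=
  if r % 9 = 0 then 0 else if r % 9 = 6 then 0 else if r % 9 = 3 then 3 else if r % 9 = 4 then 4
  else if r % 9 = 1 then 1 else if r % 9 = 7 then 1 else if r % 9 = 8 then 5 else 2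

def chkA2 (r : ℕ) : Bool :=
  cdvd (fpow (Cub.L : RA ℤ (r : ℤ)) 14 - 1) 4 && (ev (dat (cls2 r)).t (r : ℤ) % 4 == 0) &&
    !(det (seq2 1 (cdiv (fpow (Cub.L : RA ℤ (r : ℤ)) 14 - 1) 4) 3)
      (seq2 (ev (dat (cls2 r)).t (r : ℤ) / 4) (gam (r : ℤ) (dat (cls2 r))) 3) % 16 == 0)

theorem chkA2_all : ∀ r : Fin 64, chkA2 r = true := by decide +kernel

def chkA3 (r : ℕ) : Bool :=
  cdvd (fpow (Cub.L : RA ℤ (r : ℤ)) 104 - 1) 3 && (ev (dat (cls3 r)).t (r : ℤ) % 3 == 0) &&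
    !(det (seq3 1 (cdiv (fpow (Cub.L : RA ℤ (r : ℤ)) 104 - 1) 3) 2)
      (seq3 (ev (dat (cls3 r)).t (r : ℤ) / 3) (gam (r : ℤ) (dat (cls3 r))) 2) % 27 == 0)

theorem chkA3_all : ∀ r : Fin 81, chkA3 r = true := by decide +kernel

/-! ### the cubic polynomials `x³ - a x² + (a - 3) x + 1` -/

/-- `R[L] / (L³ - a L² + (a - 3) L + 1)` -/
abbrev RB (R : Type) [CommRing R] (a : R) : Type := Cub R a (3 - a) (-1)

section units

variable {R : Type} [CommRing R] (a : R)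

/-- the unit `L` -/
def LB : (RB R a)ˣ where
  val := Cub.L
  inv := ⟨3 - a, a, -1⟩
  val_inv := by ext <;> simp
  inv_val := by ext <;> simp

/-- the unit `1 - L` -/
def MB : (RB R a)ˣ where
  val := 1 - Cub.L
  inv := ⟨2, a - 1, -1⟩
  val_inv := by ext <;> simp <;> ring
  inv_val := by ext <;> simp <;> ring

end units

def chkB2 (r : ℕ) : Bool :=
  cdvd (fpow (Cub.L : RB ℤ (r : ℤ)) 14 - 1) 4 && cdvd (fpow (1 - Cub.L : RB ℤ (r : ℤ)) 14 - 1) 4 &&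
    !(det (seq2 1 (cdiv (fpow (Cub.L : RB ℤ (r : ℤ)) 14 - 1) 4) 3)
      (seq2 1 (cdiv (fpow (1 - Cub.L : RB ℤ (r : ℤ)) 14 - 1) 4) 3) % 16 == 0)

theorem chkB2_all : ∀ r : Fin 64, chkB2 r = true := by decide +kernel

/-- the exponent -/
def exB (r : ℕ) : ℕ := if r % 3 = 0 then 6 else 26

def chkB3 (r : ℕ) : Bool :=
  cdvd (fpow (Cub.L : RB ℤ (r : ℤ)) (exB r) - 1) 3 &&
    cdvd (fpow (1 - Cub.L : RB ℤ (r : ℤ)) (exB r) - 1) 3 &&
    !(det (seq3 1 (cdiv (fpow (Cub.L : RB ℤ (r : ℤ)) (exB r) - 1) 3) 2)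
      (seq3 1 (cdiv (fpow (1 - Cub.L : RB ℤ (r : ℤ)) (exB r) - 1) 3) 2) % 27 == 0)

theorem chkB3_all : ∀ r : Fin 81, chkB3 r = true := by decide +kernel

end Pool.Agent.H31.Leo
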