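import Pool.Agent.H31.Leo.Cub

set_option autoImplicit false

namespace Pool.Agent.H31.Leo

open Filter Topology

section zpow

variable {B : Type} [CommRing B]

theorem npow_approx (X : Bˣ) (q u : B) (h : (X : B) = 1 + q * u) (n : ℕ) :
    ∃ e : B, ((X ^ n : Bˣ) : B) = 1 + (n : B) * (q * u) + q ^ 2 * e := by
  induction n with
  | zero => exact ⟨0, by simp⟩
  | succ n ih =>
    obtain ⟨e, he⟩ := ih
    refine ⟨e * (1 + q * u) + (n : B) * u ^ 2, ?_⟩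
    rw [pow_succ, Units.val_mul, he, h]
    push_cast
    ring

theorem zpow_approx (X : Bˣ) (q u : B) (h : (X : B) = 1 + q * u) (n : ℤ) :
    ∃ e : B, ((X ^ n : Bˣ) : B) = 1 + (n : B) * (q * u) + q ^ 2 * e := by
  obtain ⟨k, rfl | rfl⟩ := n.eq_nat_or_neg
  · obtain ⟨e, he⟩ := npow_approx X q u h k
    exact ⟨e, by rw [zpow_natCast, he]; push_cast; ring⟩
  · obtain ⟨e, he⟩ := npow_approx X q u h k
    set y : B := ((X ^ (-(k : ℤ)) : Bˣ) : B) with hy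
    have h1 : ((X ^ k : Bˣ) : B) * y = 1 := by
      rw [hy, ← Units.val_mul, ← zpow_natCast, ← zpow_add, add_neg_cancel, zpow_zero, Units.val_one]
    rw [he] at h1
    refine ⟨(k : B) * u * ((k : B) * u * y + q * e * y) - e * y, ?_⟩
    push_cast
    linear_combination (1 - (k : B) * (q * u)) * h1

end zpow

section padic

variable {p : ℕ} [hp : Fact p.Prime]

theorem prime_p : Prime (p : ℤ_[p]) := PadicInt.prime_p

theorem p_ne : (p : ℤ_[p]) ≠ 0 := prime_p.ne_zero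

/-- cancel an element which is not divisible by `p^M` -/
theorem dvd_of_mul (M : ℕ) : ∀ (N : ℕ) (m s : ℤ_[p]), ¬ (p : ℤ_[p]) ^ M ∣ s →
    (p : ℤ_[p]) ^ (N + M) ∣ m * s → (p : ℤ_[p]) ^ N ∣ m := by
  induction M with
  | zero => intro N m s h; simp at h
  | succ M ih =>
    intro N m s h hd
    by_cases hs : (p : ℤ_[p]) ∣ s
    · obtain ⟨t, rfl⟩ := hs
      refine ih N m t ?_ ?_
      · intro ht
        apply h
        rw [pow_succ']
        exact mul_dvd_mul_left _ ht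
      · have h1 : m * ((p : ℤ_[p]) * t) = (p : ℤ_[p]) * (m * t) := by ring
        rw [h1, ← add_assoc, pow_succ'] at hd
        exact (mul_dvd_mul_iff_left p_ne).1 hd
    · have h1 := prime_p.pow_dvd_of_dvd_mul_right _ hs hd
      exact (pow_dvd_pow _ (by omega)).trans h1

theorem exists_not_dvd {s : ℤ_[p]} (hs : s ≠ 0) : ∃ M : ℕ, ¬ (p : ℤ_[p]) ^ M ∣ s := by
  by_contra h
  push Not at h
  apply hs
  have h1 : ∀ n : ℕ, s ∈ (Ideal.span {(p : ℤ_[p]) ^ n} : Ideal ℤ_[p]) := fun n =>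
    Ideal.mem_span_singleton.2 (h n)
  have h2 : ‖s‖ = 0 := by
    refine le_antisymm ?_ (norm_nonneg _)
    have h3 : Tendsto (fun n : ℕ => (p : ℝ) ^ (-(n : ℤ))) atTop (𝓝 0) := by
      have h4 : Tendsto (fun n : ℕ => ((p : ℝ)⁻¹) ^ n) atTop (𝓝 0) := by
        apply tendsto_pow_atTop_nhds_zero_of_lt_one
        · positivity
        · have : (1 : ℝ) < p := by exact_mod_cast hp.out.one_lt
          exact inv_lt_one_of_one_lt₀ this
      refine h4.congr fun n => ?_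
      rw [zpow_neg, zpow_natCast, inv_pow]
    exact ge_of_tendsto' h3 fun n => (PadicInt.norm_le_pow_iff_mem_span_pow s n).2 (h1 n)
  exact norm_eq_zero.1 h2

variable {b c d : ℤ_[p]}

theorem natCast_eq_of (n : ℕ) : ((n : ℕ) : Cub ℤ_[p] b c d) = Cub.of (n : ℤ_[p]) := by
  ext <;> simp

theorem cancel_of {r : ℤ_[p]} (hr : r ≠ 0) {u v : Cub ℤ_[p] b c d}
    (h : Cub.of r * u = Cub.of r * v) : u = v := by
  have h1 := congrArg Cub.x h
  have h2 := congrArg Cub.y h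
  have h3 := congrArg Cub.z h
  rw [Cub.of_mul_x, Cub.of_mul_x] at h1
  rw [Cub.of_mul_y, Cub.of_mul_y] at h2
  rw [Cub.of_mul_z, Cub.of_mul_z] at h3
  exact Cub.ext (mul_left_cancel₀ hr h1) (mul_left_cancel₀ hr h2) (mul_left_cancel₀ hr h3)

/-- the determinant of the last two coordinates -/
def det {R : Type} [CommRing R] {b c d : R} (u v : Cub R b c d) : R := u.y * v.z - u.z * v.y

/-- **Core lemma.** -/
theorem core (X Y : (Cub ℤ_[p] b c d)ˣ) (σ τ : ℤ_[p]) (hσ : σ ≠ 0) (hτ : τ ≠ 0)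
    (α γ : ℕ → Cub ℤ_[p] b c d) (j₀ M : ℕ)
    (hX : ∀ j, (X : Cub ℤ_[p] b c d) ^ (p ^ j) = 1 + Cub.of ((p : ℤ_[p]) ^ j) * (Cub.of σ * α j))
    (hY : ∀ j, (Y : Cub ℤ_[p] b c d) ^ (p ^ j) = 1 + Cub.of ((p : ℤ_[p]) ^ j) * (Cub.of τ * γ j))
    (hdet : ∀ j, j₀ ≤ j → ¬ (p : ℤ_[p]) ^ M ∣ det (α j) (γ j))
    (m n : ℕ → ℤ)
    (hmn : ∀ N : ℕ, ∀ᶠ k in atTop, Cub.of ((p : ℤ_[p]) ^ N) ∣
      ((X ^ m k * Y ^ n k : (Cub ℤ_[p] b c d)ˣ) : Cub ℤ_[p] b c d) - 1) (N : ℕ) :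
    ∀ᶠ k in atTop, (p : ℤ_[p]) ^ N ∣ ((m k : ℤ) : ℤ_[p]) ∧ (p : ℤ_[p]) ^ N ∣ ((n k : ℤ) : ℤ_[p]) := by
  obtain ⟨V, hV⟩ := exists_not_dvd hσ
  obtain ⟨W, hW⟩ := exists_not_dvd hτ
  set j := j₀ + N + V + W + M with hj
  filter_upwards [hmn (j + j)] with k hk
  set q : Cub ℤ_[p] b c d := Cub.of ((p : ℤ_[p]) ^ j) with hq
  have hX' : ((X ^ (p ^ j) : (Cub ℤ_[p] b c d)ˣ) : Cub ℤ_[p] b c d) = 1 + q * (Cub.of σ * α j) := by
    rw [Units.val_pow_eq_pow_val, hX j]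
  have hY' : ((Y ^ (p ^ j) : (Cub ℤ_[p] b c d)ˣ) : Cub ℤ_[p] b c d) = 1 + q * (Cub.of τ * γ j) := by
    rw [Units.val_pow_eq_pow_val, hY j]
  obtain ⟨e₁, he₁⟩ := zpow_approx _ q _ hX' (m k)
  obtain ⟨e₂, he₂⟩ := zpow_approx _ q _ hY' (n k)
  -- the power of the relation
  have h1 : Cub.of ((p : ℤ_[p]) ^ (j + j)) ∣
      (((X ^ (p ^ j)) ^ m k * (Y ^ (p ^ j)) ^ n k : (Cub ℤ_[p] b c d)ˣ) : Cub ℤ_[p] b c d) - 1 := by
    have h2 : ((X ^ (p ^ j)) ^ m k * (Y ^ (p ^ j)) ^ n k : (Cub ℤ_[p] b c d)ˣ) = (X ^ m k * Y ^ n k) ^ (p ^ j) := by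
      rw [mul_pow, ← zpow_natCast, ← zpow_natCast, ← zpow_natCast, ← zpow_natCast, ← zpow_mul,
        ← zpow_mul, ← zpow_mul, ← zpow_mul, mul_comm (m k), mul_comm (n k)]
    rw [h2, Units.val_pow_eq_pow_val]
    exact hk.trans (sub_one_dvd_pow_sub_one _ _)
  rw [Units.val_mul, he₁, he₂] at h1
  have hqq : (Cub.of ((p : ℤ_[p]) ^ (j + j)) : Cub ℤ_[p] b c d) = q * q := by
    rw [hq, ← map_mul, pow_add]
  rw [hqq] at h1
  obtain ⟨w, hw⟩ := h1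
  have h3 : q ∣ ((m k : ℤ) : Cub ℤ_[p] b c d) * (Cub.of σ * α j) + ((n k : ℤ) : Cub ℤ_[p] b c d) * (Cub.of τ * γ j) := by
    set A : Cub ℤ_[p] b c d := Cub.of σ * α j
    set G : Cub ℤ_[p] b c d := Cub.of τ * γ j
    refine ⟨w - (e₁ + e₂ + ((m k : ℤ) : Cub ℤ_[p] b c d) * A * ((n k : ℤ) : Cub ℤ_[p] b c d) * G
      + ((m k : ℤ) : Cub ℤ_[p] b c d) * A * q * e₂ + ((n k : ℤ) : Cub ℤ_[p] b c d) * G * q * e₁ + q ^ 2 * e₁ * e₂), ?_⟩
    have hp0 : (p : ℤ_[p]) ^ j ≠ 0 := pow_ne_zero _ p_ne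
    apply cancel_of hp0
    rw [← hq]
    linear_combination hw
  have h4 := (Cub.of_dvd_iff _ _).1 h3
  obtain ⟨-, h5, h6⟩ := h4
  have ecast : ∀ (t : ℤ) (u : Cub ℤ_[p] b c d), ((t : Cub ℤ_[p] b c d) * u).y = (t : ℤ_[p]) * u.y ∧
      ((t : Cub ℤ_[p] b c d) * u).z = (t : ℤ_[p]) * u.z := by
    intro t u
    constructor <;> simp
  rw [Cub.add_y, (ecast _ _).1, (ecast _ _).1, Cub.of_mul_y, Cub.of_mul_y] at h5
  rw [Cub.add_z, (ecast _ _).2, (ecast _ _).2, Cub.of_mul_z, Cub.of_mul_z] at h6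
  have hdj := hdet j (by omega)
  have h7 : (p : ℤ_[p]) ^ j ∣ ((m k : ℤ) : ℤ_[p]) * σ * det (α j) (γ j) := by
    have : ((m k : ℤ) : ℤ_[p]) * σ * det (α j) (γ j) =
        (((m k : ℤ) : ℤ_[p]) * (σ * (α j).y) + ((n k : ℤ) : ℤ_[p]) * (τ * (γ j).y)) * (γ j).z -
        (((m k : ℤ) : ℤ_[p]) * (σ * (α j).z) + ((n k : ℤ) : ℤ_[p]) * (τ * (γ j).z)) * (γ j).y := by
      unfold det; ring
    rw [this]
    exact dvd_sub (h5.mul_right _) (h6.mul_right _)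
  have h8 : (p : ℤ_[p]) ^ j ∣ ((n k : ℤ) : ℤ_[p]) * τ * det (α j) (γ j) := by
    have : ((n k : ℤ) : ℤ_[p]) * τ * det (α j) (γ j) =
        (((m k : ℤ) : ℤ_[p]) * (σ * (α j).z) + ((n k : ℤ) : ℤ_[p]) * (τ * (γ j).z)) * (α j).y -
        (((m k : ℤ) : ℤ_[p]) * (σ * (α j).y) + ((n k : ℤ) : ℤ_[p]) * (τ * (γ j).y)) * (α j).z := by
      unfold det; ring
    rw [this]
    exact dvd_sub (h6.mul_right _) (h5.mul_right _)
  constructor
  · have e1 : j = (j₀ + N + W + V) + M := by omega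
    rw [e1] at h7
    rw [← e1] at h7
    have h9 := dvd_of_mul M (j₀ + N + W + V) _ _ hdj (by rw [← e1]; exact h7)
    have h10 := dvd_of_mul V (j₀ + N + W) _ _ hV h9
    exact (pow_dvd_pow _ (by omega)).trans h10
  · have e1 : j = (j₀ + N + V + W) + M := by omega
    have h9 := dvd_of_mul M (j₀ + N + V + W) _ _ hdj (by rw [← e1]; exact h8)
    have h10 := dvd_of_mul W (j₀ + N + V) _ _ hW h9
    exact (pow_dvd_pow _ (by omega)).trans h10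

end padic

end Pool.Agent.H31.Leo
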