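import Mathlib

/-!
# The cubic rings `R[L] / (L³ = b L² + c L + d)`
-/

set_option autoImplicit false

namespace Pool.Agent.H31.Leo

/-- the ring `R[L] / (L³ = b L² + c L + d)`: the element `x + y L + z L²` -/
@[ext] structure Cub (R : Type) (b c d : R) where
  x : R
  y : R
  z : R

namespace Cub

section ring

variable {R : Type} [CommRing R] {b c d : R}

instance : Zero (Cub R b c d) := ⟨⟨0, 0, 0⟩⟩
instance : One (Cub R b c d) := ⟨⟨1, 0, 0⟩⟩
instance : Add (Cub R b c d) := ⟨fun u v => ⟨u.x + v.x, u.y + v.y, u.z + v.z⟩⟩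
instance : Neg (Cub R b c d) := ⟨fun u => ⟨-u.x, -u.y, -u.z⟩⟩
instance : Sub (Cub R b c d) := ⟨fun u v => ⟨u.x - v.x, u.y - v.y, u.z - v.z⟩⟩
instance : Mul (Cub R b c d) := ⟨fun u v =>
  ⟨u.x * v.x + d * (u.y * v.z + u.z * v.y) + b * d * (u.z * v.z),
   u.x * v.y + u.y * v.x + c * (u.y * v.z + u.z * v.y) + (b * c + d) * (u.z * v.z),
   u.x * v.z + u.y * v.y + u.z * v.x + b * (u.y * v.z + u.z * v.y) + (b * b + c) * (u.z * v.z)⟩⟩
instance : NatCast (Cub R b c d) := ⟨fun n => ⟨n, 0, 0⟩⟩
instance : IntCast (Cub R b c d) := ⟨fun n => ⟨n, 0, 0⟩⟩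

@[simp] theorem zero_x : (0 : Cub R b c d).x = 0 := rfl
@[simp] theorem zero_y : (0 : Cub R b c d).y = 0 := rfl
@[simp] theorem zero_z : (0 : Cub R b c d).z = 0 := rfl
@[simp] theorem one_x : (1 : Cub R b c d).x = 1 := rfl
@[simp] theorem one_y : (1 : Cub R b c d).y = 0 := rfl
@[simp] theorem one_z : (1 : Cub R b c d).z = 0 := rfl
@[simp] theorem add_x (u v : Cub R b c d) : (u + v).x = u.x + v.x := rfl
@[simp] theorem add_y (u v : Cub R b c d) : (u + v).y = u.y + v.y := rfl
@[simp] theorem add_z (u v : Cub R b c d) : (u + v).z = u.z + v.z := rfl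
@[simp] theorem neg_x (u : Cub R b c d) : (-u).x = -u.x := rfl
@[simp] theorem neg_y (u : Cub R b c d) : (-u).y = -u.y := rfl
@[simp] theorem neg_z (u : Cub R b c d) : (-u).z = -u.z := rfl
@[simp] theorem sub_x (u v : Cub R b c d) : (u - v).x = u.x - v.x := rfl
@[simp] theorem sub_y (u v : Cub R b c d) : (u - v).y = u.y - v.y := rfl
@[simp] theorem sub_z (u v : Cub R b c d) : (u - v).z = u.z - v.z := rfl
@[simp] theorem natCast_x (n : ℕ) : (n : Cub R b c d).x = n := rfl
@[simp] theorem natCast_y (n : ℕ) : (n : Cub R b c d).y = 0 := rfl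
@[simp] theorem natCast_z (n : ℕ) : (n : Cub R b c d).z = 0 := rfl
@[simp] theorem intCast_x (n : ℤ) : (n : Cub R b c d).x = n := rfl
@[simp] theorem intCast_y (n : ℤ) : (n : Cub R b c d).y = 0 := rfl
@[simp] theorem intCast_z (n : ℤ) : (n : Cub R b c d).z = 0 := rfl
@[simp] theorem mul_x (u v : Cub R b c d) :
    (u * v).x = u.x * v.x + d * (u.y * v.z + u.z * v.y) + b * d * (u.z * v.z) := rfl
@[simp] theorem mul_y (u v : Cub R b c d) : (u * v).y =
    u.x * v.y + u.y * v.x + c * (u.y * v.z + u.z * v.y) + (b * c + d) * (u.z * v.z) := rfl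
@[simp] theorem mul_z (u v : Cub R b c d) : (u * v).z =
    u.x * v.z + u.y * v.y + u.z * v.x + b * (u.y * v.z + u.z * v.y) + (b * b + c) * (u.z * v.z) :=
  rfl

instance : CommRing (Cub R b c d) where
  add_assoc u v w := by ext <;> simp [add_assoc]
  zero_add u := by ext <;> simp
  add_zero u := by ext <;> simp
  add_comm u v := by ext <;> simp [add_comm]
  mul_assoc u v w := by ext <;> simp <;> ring
  one_mul u := by ext <;> simp
  mul_one u := by ext <;> simp
  left_distrib u v w := by ext <;> simp <;> ring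
  right_distrib u v w := by ext <;> simp <;> ring
  zero_mul u := by ext <;> simp
  mul_zero u := by ext <;> simp
  mul_comm u v := by ext <;> simp <;> ring
  sub_eq_add_neg u v := by ext <;> simp [sub_eq_add_neg]
  neg_add_cancel u := by ext <;> simp
  nsmul := nsmulRec
  zsmul := zsmulRec
  natCast_zero := by ext <;> simp
  natCast_succ n := by ext <;> simp
  intCast_ofNat n := by ext <;> simp
  intCast_negSucc n := by ext <;> simp

/-- the constants -/
def of : R →+* Cub R b c d where
  toFun r := ⟨r, 0, 0⟩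
  map_one' := rfl
  map_zero' := rfl
  map_mul' u v := by ext <;> simp
  map_add' u v := by ext <;> simp

@[simp] theorem of_x (r : R) : (of r : Cub R b c d).x = r := rfl
@[simp] theorem of_y (r : R) : (of r : Cub R b c d).y = 0 := rfl
@[simp] theorem of_z (r : R) : (of r : Cub R b c d).z = 0 := rfl

theorem of_mul_x (r : R) (u : Cub R b c d) : (of r * u).x = r * u.x := by simp
theorem of_mul_y (r : R) (u : Cub R b c d) : (of r * u).y = r * u.y := by simp
theorem of_mul_z (r : R) (u : Cub R b c d) : (of r * u).z = r * u.z := by simp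

theorem of_dvd_iff (r : R) (u : Cub R b c d) : of r ∣ u ↔ r ∣ u.x ∧ r ∣ u.y ∧ r ∣ u.z := by
  constructor
  · rintro ⟨v, rfl⟩
    exact ⟨⟨v.x, of_mul_x _ _⟩, ⟨v.y, of_mul_y _ _⟩, ⟨v.z, of_mul_z _ _⟩⟩
  · rintro ⟨⟨x, hx⟩, ⟨y, hy⟩, ⟨z, hz⟩⟩
    refine ⟨⟨x, y, z⟩, ?_⟩
    ext
    · rw [of_mul_x, hx]
    · rw [of_mul_y, hy]
    · rw [of_mul_z, hz]

/-- the generator -/
def L : Cub R b c d := ⟨0, 1, 0⟩

@[simp] theorem L_x : (L : Cub R b c d).x = 0 := rfl
@[simp] theorem L_y : (L : Cub R b c d).y = 1 := rfl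
@[simp] theorem L_z : (L : Cub R b c d).z = 0 := rfl

theorem eta (u : Cub R b c d) : u = of u.x + of u.y * L + of u.z * L ^ 2 := by
  rw [pow_two]
  ext <;> simp

end ring

section map

variable {R R' : Type} [CommRing R] [CommRing R'] {b c d : R} {b' c' d' : R'}

/-- functoriality -/
def map (f : R →+* R') (hb : f b = b') (hc : f c = c') (hd : f d = d') :
    Cub R b c d →+* Cub R' b' c' d' where
  toFun u := ⟨f u.x, f u.y, f u.z⟩
  map_one' := by ext <;> simp
  map_zero' := by ext <;> simp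
  map_mul' u v := by subst hb hc hd; ext <;> simp
  map_add' u v := by ext <;> simp

variable (f : R →+* R') (hb : f b = b') (hc : f c = c') (hd : f d = d')

@[simp] theorem map_x (u : Cub R b c d) : (map f hb hc hd u).x = f u.x := rfl
@[simp] theorem map_y (u : Cub R b c d) : (map f hb hc hd u).y = f u.y := rfl
@[simp] theorem map_z (u : Cub R b c d) : (map f hb hc hd u).z = f u.z := rfl

@[simp] theorem map_of (r : R) : map f hb hc hd (of r) = of (f r) := by
  ext <;> simp

@[simp] theorem map_L : map f hb hc hd L = L := by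
  ext <;> simp

theorem map_inj (hf : Function.Injective f) : Function.Injective (map f hb hc hd) := by
  intro u v h
  have h1 := congrArg Cub.x h
  have h2 := congrArg Cub.y h
  have h3 := congrArg Cub.z h
  exact Cub.ext (hf h1) (hf h2) (hf h3)

end map

end Cub

end Pool.Agent.H31.Leo
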