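import Pool.Agent.H31.Leo.Num

set_option autoImplicit false

namespace Pool.Agent.H31.Leo

open Filter Topology

/-! ### the cubic polynomials `x³ - a x² + (a + 1) x - 1` -/

/-- `R[L] / (L³ - a L² + (a + 1) L - 1)` -/
abbrev RA (R : Type) [CommRing R] (a : R) : Type := Cub R a (-(a + 1)) 1

section units

variable {R : Type} [CommRing R] (a : R)

/-- the unit `L` -/
def LA : (RA R a)ˣ where
  val := Cub.L
  inv := ⟨a + 1, -a, 1⟩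
  val_inv := by ext <;> simp
  inv_val := by ext <;> simp

/-- the unit `1 - L` -/
def MA : (RA R a)ˣ where
  val := 1 - Cub.L
  inv := ⟨2, 1 - a, 1⟩
  val_inv := by ext <;> simp <;> ring
  inv_val := by ext <;> simp <;> ring

theorem LA_val : ((LA a : (RA R a)ˣ) : RA R a) = Cub.L := rfl
theorem MA_val : ((MA a : (RA R a)ˣ) : RA R a) = 1 - Cub.L := rfl
theorem LA_inv : (((LA a)⁻¹ : (RA R a)ˣ) : RA R a) = ⟨a + 1, -a, 1⟩ := rfl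
theorem MA_inv : (((MA a)⁻¹ : (RA R a)ˣ) : RA R a) = ⟨2, 1 - a, 1⟩ := rfl

/-- the data: exponents `(x, y)` and polynomials `τ, g₀, g₁, g₂` with `L^x (1 - L)^y = 1 + τ g` -/
structure Dat where
  xe : ℤ
  ye : ℤ
  t : List ℤ
  g0 : List ℤ
  g1 : List ℤ
  g2 : List ℤ

/-- the relations -/
def dat : ℕ → Dat
  | 0 => ⟨3, -1, [0, 1], [], [-1], []⟩
  | 1 => ⟨3, -2, [-1, 1], [-1], [-1, 1], [-1]⟩
  | 2 => ⟨-2, 3, [2, -1], [0, -1], [0, 1], [-1]⟩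
  | 3 => ⟨-1, 3, [3, -1], [-1], [1], []⟩
  | 4 => ⟨-1, 5, [4, -1], [], [1, -1], [-2, 1]⟩
  | 5 => ⟨5, -1, [1, 1], [-1], [0, 1], [1, -1]⟩
  | _ => ⟨7, -7, [4, -3, 1], [32, -56, 36, -10, 1], [15, -52, 64, -37, 10, -1],
      [22, -41, 29, -9, 1]⟩

/-- the element `g` -/
def gam (D : Dat) : RA R a := ⟨ev D.g0 a, ev D.g1 a, ev D.g2 a⟩

theorem sq_L : (Cub.L : RA R a) ^ 2 = ⟨0, 0, 1⟩ := by
  rw [pow_two]; ext <;> simp

theorem cu_L : (Cub.L : RA R a) ^ 3 = ⟨1, -(a + 1), a⟩ := by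
  rw [pow_succ, sq_L]; ext <;> simp

theorem sq_M : (1 - Cub.L : RA R a) ^ 2 = ⟨1, -2, 1⟩ := by
  rw [pow_two]; ext <;> simp <;> norm_num

theorem cu_M : (1 - Cub.L : RA R a) ^ 3 = ⟨0, a - 2, 3 - a⟩ := by
  rw [pow_succ, sq_M]; ext <;> simp <;> ring

theorem fi_L : (Cub.L : RA R a) ^ 5 = Cub.L ^ 3 * Cub.L ^ 2 := by ring

theorem fi_M : (1 - Cub.L : RA R a) ^ 5 = (1 - Cub.L) ^ 3 * (1 - Cub.L) ^ 2 := by ring

/-- `L (1 - L)⁻¹` -/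
theorem LM : (Cub.L : RA R a) * ⟨2, 1 - a, 1⟩ = ⟨1, 1 - a, 1⟩ := by
  ext <;> simp <;> ring

theorem LM2 : (⟨1, 1 - a, 1⟩ : RA R a) ^ 2 = ⟨3 - a, 1 - 3 * a + a ^ 2, 2 - a⟩ := by
  rw [pow_two]; ext <;> simp <;> ring

theorem LM3 : (⟨1, 1 - a, 1⟩ : RA R a) ^ 3 =
    ⟨6 - 5 * a + a ^ 2, 3 - 7 * a + 5 * a ^ 2 - a ^ 3, 4 - 4 * a + a ^ 2⟩ := by
  rw [pow_succ, LM2]; ext <;> simp <;> ring

theorem LM6 : (⟨1, 1 - a, 1⟩ : RA R a) ^ 6 =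
    ⟨60 - 124 * a + 107 * a ^ 2 - 48 * a ^ 3 + 11 * a ^ 4 - a ^ 5,
     28 - 106 * a + 154 * a ^ 2 - 116 * a ^ 3 + 49 * a ^ 4 - 11 * a ^ 5 + a ^ 6,
     41 - 90 * a + 83 * a ^ 2 - 40 * a ^ 3 + 10 * a ^ 4 - a ^ 5⟩ := by
  have : (⟨1, 1 - a, 1⟩ : RA R a) ^ 6 = (⟨1, 1 - a, 1⟩ : RA R a) ^ 3 * (⟨1, 1 - a, 1⟩ : RA R a) ^ 3 := by
    ring
  rw [this, LM3]; ext <;> simp <;> ring

theorem LM7 : (⟨1, 1 - a, 1⟩ : RA R a) ^ 7 =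
    ⟨129 - 320 * a + 344 * a ^ 2 - 204 * a ^ 3 + 70 * a ^ 4 - 13 * a ^ 5 + a ^ 6,
     60 - 253 * a + 427 * a ^ 2 - 392 * a ^ 3 + 215 * a ^ 4 - 71 * a ^ 5 + 13 * a ^ 6 - a ^ 7,
     88 - 230 * a + 261 * a ^ 2 - 164 * a ^ 3 + 60 * a ^ 4 - 12 * a ^ 5 + a ^ 6⟩ := by
  rw [pow_succ, LM6]; ext <;> simp <;> ring

theorem dat_spec (i : ℕ) :
    (((LA a) ^ (dat i).xe * (MA a) ^ (dat i).ye : (RA R a)ˣ) : RA R a) =
      1 + Cub.of (ev (dat i).t a) * gam a (dat i) := by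
  have e2 : ∀ u : (RA R a)ˣ, ((u ^ (2 : ℤ) : (RA R a)ˣ) : RA R a) = (u : RA R a) ^ 2 := by
    intro u; rw [← Units.val_pow_eq_pow_val]; rfl
  have e3 : ∀ u : (RA R a)ˣ, ((u ^ (3 : ℤ) : (RA R a)ˣ) : RA R a) = (u : RA R a) ^ 3 := by
    intro u; rw [← Units.val_pow_eq_pow_val]; rfl
  have e5 : ∀ u : (RA R a)ˣ, ((u ^ (5 : ℤ) : (RA R a)ˣ) : RA R a) = (u : RA R a) ^ 5 := by
    intro u; rw [← Units.val_pow_eq_pow_val]; rfl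
  have n1 : ∀ u : (RA R a)ˣ, ((u ^ (-1 : ℤ) : (RA R a)ˣ) : RA R a) = ((u⁻¹ : (RA R a)ˣ) : RA R a) := by
    intro u; rw [zpow_neg_one]
  have n2 : ∀ u : (RA R a)ˣ, ((u ^ (-2 : ℤ) : (RA R a)ˣ) : RA R a) =
      ((u⁻¹ : (RA R a)ˣ) : RA R a) ^ 2 := by
    intro u
    rw [show (-2 : ℤ) = -((2 : ℕ) : ℤ) by norm_num, zpow_neg, zpow_natCast, ← inv_pow,
      Units.val_pow_eq_pow_val]
  match i with
  | 0 =>
    simp only [dat, gam, ev, List.foldr]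
    rw [Units.val_mul, e3, n1, LA_val, MA_inv, cu_L]
    ext <;> simp <;> ring
  | 1 =>
    simp only [dat, gam, ev, List.foldr]
    rw [Units.val_mul, e3, n2, LA_val, MA_inv, cu_L]
    have : (⟨2, 1 - a, 1⟩ : RA R a) ^ 2 = ⟨6 - a, 3 - 5 * a + a ^ 2, 4 - a⟩ := by
      rw [pow_two]; ext <;> simp <;> ring
    rw [this]
    ext <;> simp <;> ring
  | 2 =>
    simp only [dat, gam, ev, List.foldr]
    rw [Units.val_mul, e3, n2, LA_inv, MA_val, cu_M]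
    have : (⟨a + 1, -a, 1⟩ : RA R a) ^ 2 = ⟨1 + a + a ^ 2, 1 - a - a ^ 2, 1 + a⟩ := by
      rw [pow_two]; ext <;> simp <;> ring
    rw [this]
    ext <;> simp <;> ring
  | 3 =>
    simp only [dat, gam, ev, List.foldr]
    rw [Units.val_mul, e3, n1, LA_inv, MA_val, cu_M]
    ext <;> simp <;> ring
  | 4 =>
    simp only [dat, gam, ev, List.foldr]
    rw [Units.val_mul, e5, n1, LA_inv, MA_val, fi_M, cu_M, sq_M]
    ext <;> simp <;> ring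
  | 5 =>
    simp only [dat, gam, ev, List.foldr]
    rw [Units.val_mul, e5, n1, LA_val, MA_inv, fi_L, cu_L, sq_L]
    ext <;> simp <;> ring
  | n + 6 =>
    simp only [dat, gam, ev, List.foldr]
    have h7 : ((LA a) ^ (7 : ℤ) * (MA a) ^ (-7 : ℤ) : (RA R a)ˣ) = (LA a * (MA a)⁻¹) ^ 7 := by
      rw [mul_pow, show (-7 : ℤ) = -((7 : ℕ) : ℤ) by norm_num, zpow_neg, zpow_natCast, inv_pow]
      rfl
    rw [h7, Units.val_pow_eq_pow_val, Units.val_mul, LA_val, MA_inv, LM, LM7]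
    ext <;> simp <;> ring

end units

end Pool.Agent.H31.Leo
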