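import Pool.Agent.H31.Leo.Chk

set_option autoImplicit false

namespace Pool.Agent.H31.Leo

open Filter Topology

theorem fpow_eq {R : Type} [CommRing R] {b c d : R} (u : Cub R b c d) (n : ℕ) : fpow u n = u ^ n := by
  induction n with
  | zero => rw [pow_zero]; rfl
  | succ n ih => rw [pow_succ, ← ih]; rfl

theorem cdvd_spec {b c d : ℤ} (u : Cub ℤ b c d) (n : ℤ) (h : cdvd u n = true) :
    Cub.of n * cdiv u n = u := by
  unfold cdvd at h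
  simp only [Bool.and_eq_true, beq_iff_eq] at h
  obtain ⟨⟨h1, h2⟩, h3⟩ := h
  ext
  · rw [Cub.of_mul_x]; exact Int.mul_ediv_cancel' (Int.dvd_of_emod_eq_zero h1)
  · rw [Cub.of_mul_y]; exact Int.mul_ediv_cancel' (Int.dvd_of_emod_eq_zero h2)
  · rw [Cub.of_mul_z]; exact Int.mul_ediv_cancel' (Int.dvd_of_emod_eq_zero h3)

theorem unit_zpow_dvd {B : Type} [CommRing B] (q : B) (u : Bˣ) (h : q ∣ (u : B) - 1) (z : ℤ) :
    q ∣ ((u ^ z : Bˣ) : B) - 1 := by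
  obtain ⟨k, rfl | rfl⟩ := z.eq_nat_or_neg
  · rw [zpow_natCast, Units.val_pow_eq_pow_val]
    exact h.trans (sub_one_dvd_pow_sub_one (u : B) k)
  · rw [zpow_neg, zpow_natCast]
    have h5 : (((u ^ k)⁻¹ : Bˣ) : B) - 1 =
        -((((u ^ k)⁻¹ : Bˣ) : B) * (((u ^ k : Bˣ) : B) - 1)) := by
      rw [mul_sub, mul_one, Units.inv_mul]; ring
    rw [h5]
    refine (dvd_neg).mpr (Dvd.dvd.mul_left ?_ _)
    rw [Units.val_pow_eq_pow_val]
    exact h.trans (sub_one_dvd_pow_sub_one (u : B) k)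

section post

variable {p : ℕ} [hp : Fact p.Prime]

/-- a sequence of integers which tends to zero -/
def Small (p : ℕ) [Fact p.Prime] (m : ℕ → ℤ) : Prop :=
  ∀ N : ℕ, ∀ᶠ k in atTop, (p : ℤ_[p]) ^ N ∣ ((m k : ℤ) : ℤ_[p])

theorem small_of_mul {m : ℕ → ℤ} {e : ℤ} (he : e ≠ 0) (h : Small p (fun k => m k * e)) :
    Small p m := by
  intro N
  have he' : (e : ℤ_[p]) ≠ 0 := by exact_mod_cast he
  obtain ⟨M, hM⟩ := exists_not_dvd he'
  filter_upwards [h (N + M)] with k hk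
  push_cast at hk
  exact dvd_of_mul M N _ _ hM hk

theorem small_post {m n : ℕ → ℤ} {e x y : ℤ} (he : e ≠ 0) (hy : y ≠ 0)
    (h1 : Small p (fun k => m k * y - n k * x)) (h2 : Small p (fun k => e * n k)) :
    Small p m ∧ Small p n := by
  have hn : Small p n := small_of_mul he (by simpa [mul_comm] using h2)
  refine ⟨small_of_mul hy ?_, hn⟩
  intro N
  filter_upwards [h1 N, hn N] with k hk1 hk2
  have : (((m k * y : ℤ)) : ℤ_[p]) = ((m k * y - n k * x : ℤ) : ℤ_[p]) + (n k : ℤ_[p]) * (x : ℤ_[p]) := by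
    push_cast; ring
  rw [this]
  exact dvd_add hk1 (hk2.mul_right _)

end post

/-- the relation -/
def Rel {p : ℕ} [Fact p.Prime] {b c d : ℤ_[p]} (X Y : (Cub ℤ_[p] b c d)ˣ) (m n : ℕ → ℤ) : Prop :=
  ∀ N : ℕ, ∀ᶠ k in atTop, Cub.of ((p : ℤ_[p]) ^ N) ∣
      ((X ^ m k * Y ^ n k : (Cub ℤ_[p] b c d)ˣ) : Cub ℤ_[p] b c d) - 1

theorem Rel.trans {p : ℕ} [Fact p.Prime] {b c d : ℤ_[p]} {X Y X' Y' : (Cub ℤ_[p] b c d)ˣ}
    {m n m' n' : ℕ → ℤ} (z : ℤ) (h : Rel X Y m n)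
    (h' : ∀ k, X' ^ m' k * Y' ^ n' k = (X ^ m k * Y ^ n k) ^ z) : Rel X' Y' m' n' := by
  intro N
  filter_upwards [h N] with k hk
  rw [h' k]
  exact unit_zpow_dvd _ _ hk z

theorem CC_L {p : ℕ} [Fact p.Prime] {b c d : ℤ_[p]} {br cr dr : ℤ} (n : ℕ) (hb : CI n b br)
    (hc : CI n c cr) (hd : CI n d dr) (e : ℕ) :
    CC n (Cub.L ^ e - 1 : Cub ℤ_[p] b c d) (Cub.L ^ e - 1 : Cub ℤ br cr dr) := by
  rw [CC_iff n hb hc hd]
  simp only [map_sub, map_pow, map_one, Cub.map_L]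

theorem CC_M {p : ℕ} [Fact p.Prime] {b c d : ℤ_[p]} {br cr dr : ℤ} (n : ℕ) (hb : CI n b br)
    (hc : CI n c cr) (hd : CI n d dr) (e : ℕ) :
    CC n ((1 - Cub.L) ^ e - 1 : Cub ℤ_[p] b c d) ((1 - Cub.L) ^ e - 1 : Cub ℤ br cr dr) := by
  rw [CC_iff n hb hc hd]
  simp only [map_sub, map_pow, map_one, Cub.map_L]

section two

theorem powA2 (a : ℤ_[2]) (r : ℕ) (hr : CI 6 a (r : ℤ))
    (hd : cdvd (fpow (Cub.L : RA ℤ (r : ℤ)) 14 - 1) 4 = true) :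
    ∃ α : RA ℤ_[2] a, (((LA a) ^ 14 : (RA ℤ_[2] a)ˣ) : RA ℤ_[2] a) = 1 + Cub.of 4 * α ∧
      CC 4 α (cdiv (fpow (Cub.L : RA ℤ (r : ℤ)) 14 - 1) 4) := by
  have h1 := cdvd_spec _ _ hd
  have hb : CI 6 a (r : ℤ) := hr
  have hc : CI 6 (-(a + 1)) (-((r : ℤ) + 1)) := by
    unfold CI at *
    rw [map_neg, map_add, map_one, hr]; push_cast; ring
  have hd' : CI 6 (1 : ℤ_[2]) 1 := by unfold CI; rw [map_one]; simp
  have h2 : CC (2 + 4) (((LA a : (RA ℤ_[2] a)ˣ) : RA ℤ_[2] a) ^ 14 - 1)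
      (Cub.of (((2 : ℕ) : ℤ) ^ 2) * cdiv (fpow (Cub.L : RA ℤ (r : ℤ)) 14 - 1) 4) := by
    have e4 : (((2 : ℕ) : ℤ) ^ 2) = 4 := by norm_num
    rw [e4, h1, fpow_eq, LA_val]
    exact CC_L 6 hb hc hd' 14
  obtain ⟨α, hα, hα'⟩ := CC_div h2
  refine ⟨α, ?_, hα'⟩
  have e4 : (((2 : ℕ) : ℤ_[2]) ^ 2) = 4 := by norm_num
  rw [e4] at hα
  rw [Units.val_pow_eq_pow_val]
  linear_combination hα

theorem ye_ne (i : ℕ) : (dat i).ye ≠ 0 := by
  match i with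
  | 0 => simp [dat]
  | 1 => simp [dat]
  | 2 => simp [dat]
  | 3 => simp [dat]
  | 4 => simp [dat]
  | 5 => simp [dat]
  | n + 6 => simp [dat]

theorem indA2 (a : ℤ_[2]) (hz : ∀ i : ℕ, ev (dat i).t a ≠ 0) (m n : ℕ → ℤ)
    (h : Rel (LA a) (MA a) m n) : Small 2 m ∧ Small 2 n := by
  obtain ⟨r, hr64, hr⟩ := exists_CI 6 a
  have hchk := chkA2_all ⟨r, by simpa using hr64⟩
  simp only [chkA2, Bool.and_eq_true, beq_iff_eq, Bool.not_eq_true', beq_eq_false_iff_ne, ne_eq] at hchk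
  obtain ⟨⟨hd, ht⟩, hdet⟩ := hchk
  set D := dat (cls2 r) with hD
  obtain ⟨α, hα, hα'⟩ := powA2 a r hr hd
  have hr4 : CI 4 a (r : ℤ) := CI_mono (by norm_num) hr
  have hc4 : CI 4 (-(a + 1)) (-((r : ℤ) + 1)) := by
    unfold CI at *
    rw [map_neg, map_add, map_one, hr4]; push_cast; ring
  have hd4 : CI 4 (1 : ℤ_[2]) 1 := by unfold CI; rw [map_one]; simp
  -- the number `τ`
  have ht6 := CI_ev 6 hr D.t
  have ht4 : ev D.t (r : ℤ) = 4 * (ev D.t (r : ℤ) / 4) :=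
    (Int.mul_ediv_cancel' (Int.dvd_of_emod_eq_zero ht)).symm
  set tr := ev D.t (r : ℤ) / 4 with htr
  rw [ht4, CI_iff] at ht6
  obtain ⟨w, hw⟩ := ht6
  set τ : ℤ_[2] := (tr : ℤ_[2]) + 16 * w with hτ
  have hτt : ev D.t a = 4 * τ := by
    push_cast at hw
    rw [hτ]
    linear_combination hw
  have hτ0 : τ ≠ 0 := by
    intro h0
    rw [h0, mul_zero] at hτt
    exact hz _ hτt
  have hCt : CI 4 τ tr := by
    rw [CI_iff]
    exact ⟨w, by rw [hτ]; push_cast; ring⟩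
  have hγ : CC 4 (gam a D) (gam (r : ℤ) D) :=
    ⟨CI_ev 4 hr4 _, CI_ev 4 hr4 _, CI_ev 4 hr4 _⟩
  have hY := dat_spec a (cls2 r)
  rw [← hD, hτt] at hY
  have hrel : Rel ((LA a) ^ 14) ((LA a) ^ D.xe * (MA a) ^ D.ye)
      (fun k => m k * D.ye - n k * D.xe) (fun k => 14 * n k) := by
    refine Rel.trans (14 * D.ye) h fun k => ?_
    rw [mul_zpow, mul_zpow, ← zpow_natCast, ← zpow_mul, ← zpow_mul, ← zpow_mul, ← zpow_mul,
      ← zpow_mul, ← mul_assoc, ← zpow_add]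
    congr 2
    · push_cast; ring
    · ring
  have key := fun N => indep2 hr4 hc4 hd4 ((LA a) ^ 14) ((LA a) ^ D.xe * (MA a) ^ D.ye) α (gam a D) τ
    hτ0 hα hY _ _ tr hα' hγ hCt (fun hdvd => hdet (Int.emod_eq_zero_of_dvd hdvd)) _ _
    (by simpa [Rel] using hrel) N
  refine small_post (by norm_num : (14 : ℤ) ≠ 0) (ye_ne (cls2 r)) (x := D.xe) ?_ ?_
  · intro N
    filter_upwards [key N] with k hk
    simpa using hk.1
  · intro N
    filter_upwards [key N] with k hk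
    simpa using hk.2

end two

end Pool.Agent.H31.Leo
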