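import Pool.Agent.H31.Leo.Ind

set_option autoImplicit false

namespace Pool.Agent.H31.Leo

open Filter Topology

section lift

variable {p : ℕ} [hp : Fact p.Prime] {b c d : ℤ_[p]} {br cr dr : ℤ}

theorem lift_L (s M : ℕ) (q : ℤ) (hq : (p : ℤ) ^ s = q) (hb : CI (s + M) b br)
    (hc : CI (s + M) c cr) (hd : CI (s + M) d dr) (e : ℕ) (X : (Cub ℤ_[p] b c d)ˣ)
    (hX : (X : Cub ℤ_[p] b c d) = Cub.L)
    (hdv : cdvd (fpow (Cub.L : Cub ℤ br cr dr) e - 1) q = true) :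
    ∃ α : Cub ℤ_[p] b c d, ((X ^ e : (Cub ℤ_[p] b c d)ˣ) : Cub ℤ_[p] b c d) =
      1 + Cub.of (q : ℤ_[p]) * α ∧ CC M α (cdiv (fpow (Cub.L : Cub ℤ br cr dr) e - 1) q) := by
  have h1 := cdvd_spec _ _ hdv
  have h2 : CC (s + M) ((X : Cub ℤ_[p] b c d) ^ e - 1)
      (Cub.of ((p : ℤ) ^ s) * cdiv (fpow (Cub.L : Cub ℤ br cr dr) e - 1) q) := by
    rw [hq, h1, fpow_eq, hX]
    exact CC_L _ hb hc hd e
  obtain ⟨α, hα, hα'⟩ := CC_div h2
  refine ⟨α, ?_, hα'⟩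
  have e4 : ((p : ℤ_[p]) ^ s) = (q : ℤ_[p]) := by rw [← hq]; push_cast; rfl
  rw [e4] at hα
  rw [Units.val_pow_eq_pow_val]
  linear_combination hα

theorem lift_M (s M : ℕ) (q : ℤ) (hq : (p : ℤ) ^ s = q) (hb : CI (s + M) b br)
    (hc : CI (s + M) c cr) (hd : CI (s + M) d dr) (e : ℕ) (X : (Cub ℤ_[p] b c d)ˣ)
    (hX : (X : Cub ℤ_[p] b c d) = 1 - Cub.L)
    (hdv : cdvd (fpow (1 - Cub.L : Cub ℤ br cr dr) e - 1) q = true) :
    ∃ α : Cub ℤ_[p] b c d, ((X ^ e : (Cub ℤ_[p] b c d)ˣ) : Cub ℤ_[p] b c d) =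
      1 + Cub.of (q : ℤ_[p]) * α ∧ CC M α (cdiv (fpow (1 - Cub.L : Cub ℤ br cr dr) e - 1) q) := by
  have h1 := cdvd_spec _ _ hdv
  have h2 : CC (s + M) ((X : Cub ℤ_[p] b c d) ^ e - 1)
      (Cub.of ((p : ℤ) ^ s) * cdiv (fpow (1 - Cub.L : Cub ℤ br cr dr) e - 1) q) := by
    rw [hq, h1, fpow_eq, hX]
    exact CC_M _ hb hc hd e
  obtain ⟨α, hα, hα'⟩ := CC_div h2
  refine ⟨α, ?_, hα'⟩
  have e4 : ((p : ℤ_[p]) ^ s) = (q : ℤ_[p]) := by rw [← hq]; push_cast; rfl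
  rw [e4] at hα
  rw [Units.val_pow_eq_pow_val]
  linear_combination hα

end lift

theorem rel_aux {p : ℕ} [Fact p.Prime] {b c d : ℤ_[p]} {X Y : (Cub ℤ_[p] b c d)ˣ} {m n : ℕ → ℤ}
    (e : ℕ) (x y : ℤ) (h : Rel X Y m n) :
    Rel (X ^ e) (X ^ x * Y ^ y) (fun k => m k * y - n k * x) (fun k => e * n k) := by
  refine Rel.trans (e * y) h fun k => ?_
  rw [mul_zpow, mul_zpow, ← zpow_natCast, ← zpow_mul, ← zpow_mul, ← zpow_mul, ← zpow_mul,
    ← zpow_mul, ← mul_assoc, ← zpow_add]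
  congr 2
  · ring
  · ring

section three

theorem indA3 (a : ℤ_[3]) (hz : ∀ i : ℕ, ev (dat i).t a ≠ 0) (m n : ℕ → ℤ)
    (h : Rel (LA a) (MA a) m n) : Small 3 m ∧ Small 3 n := by
  obtain ⟨r, hr81, hr⟩ := exists_CI 4 a
  have hchk := chkA3_all ⟨r, by simpa using hr81⟩
  simp only [chkA3, Bool.and_eq_true, beq_iff_eq, Bool.not_eq_true', beq_eq_false_iff_ne, ne_eq] at hchk
  obtain ⟨⟨hd, ht⟩, hdet⟩ := hchk
  set D := dat (cls3 r) with hD
  have hC : ∀ n : ℕ, CI n a (r : ℤ) → CI n (-(a + 1)) (-((r : ℤ) + 1)) := by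
    intro n hn
    unfold CI at *
    rw [map_neg, map_add, map_one, hn]; push_cast; ring
  have hDD : ∀ n : ℕ, CI n (1 : ℤ_[3]) 1 := by
    intro n; unfold CI; rw [map_one]; simp
  obtain ⟨α, hα, hα'⟩ := lift_L (p := 3) 1 3 3 (by norm_num) hr (hC _ hr) (hDD _) 104 (LA a)
    (LA_val a) hd
  have hr3 : CI 3 a (r : ℤ) := CI_mono (by norm_num) hr
  -- the number `τ`
  have ht6 := CI_ev 4 hr D.t
  have ht4 : ev D.t (r : ℤ) = 3 * (ev D.t (r : ℤ) / 3) :=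
    (Int.mul_ediv_cancel' (Int.dvd_of_emod_eq_zero ht)).symm
  set tr := ev D.t (r : ℤ) / 3 with htr
  rw [ht4, CI_iff] at ht6
  obtain ⟨w, hw⟩ := ht6
  set τ : ℤ_[3] := (tr : ℤ_[3]) + 27 * w with hτ
  have hτt : ev D.t a = 3 * τ := by
    push_cast at hw
    rw [hτ]
    linear_combination hw
  have hτ0 : τ ≠ 0 := by
    intro h0
    rw [h0, mul_zero] at hτt
    exact hz _ hτt
  have hCt : CI 3 τ tr := by
    rw [CI_iff]
    exact ⟨w, by rw [hτ]; push_cast; ring⟩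
  have hγ : CC 3 (gam a D) (gam (r : ℤ) D) :=
    ⟨CI_ev 3 hr3 _, CI_ev 3 hr3 _, CI_ev 3 hr3 _⟩
  have hY := dat_spec a (cls3 r)
  rw [← hD, hτt] at hY
  have hrel : Rel ((LA a) ^ 104) ((LA a) ^ D.xe * (MA a) ^ D.ye)
      (fun k => m k * D.ye - n k * D.xe) (fun k => (104 : ℕ) * n k) := rel_aux 104 D.xe D.ye h
  have key := fun N => indep3 hr3 (hC _ hr3) (hDD _) ((LA a) ^ 104)
    ((LA a) ^ D.xe * (MA a) ^ D.ye) α (gam a D) τ
    hτ0 (by rw [hα]; norm_num) hY _ _ tr hα' hγ hCt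
    (fun hdvd => hdet (Int.emod_eq_zero_of_dvd hdvd)) _ _
    (by simpa [Rel] using hrel) N
  refine small_post (by norm_num : (104 : ℤ) ≠ 0) (ye_ne (cls3 r)) (x := D.xe) ?_ ?_
  · intro N
    filter_upwards [key N] with k hk
    simpa using hk.1
  · intro N
    filter_upwards [key N] with k hk
    simpa using hk.2

end three

section B

theorem LB_val {R : Type} [CommRing R] (a : R) : ((LB a : (RB R a)ˣ) : RB R a) = Cub.L := rfl
theorem MB_val {R : Type} [CommRing R] (a : R) : ((MB a : (RB R a)ˣ) : RB R a) = 1 - Cub.L := rfl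

theorem indB2 (a : ℤ_[2]) (m n : ℕ → ℤ)
    (h : Rel (LB a) (MB a) m n) : Small 2 m ∧ Small 2 n := by
  obtain ⟨r, hr64, hr⟩ := exists_CI 6 a
  have hchk := chkB2_all ⟨r, by simpa using hr64⟩
  simp only [chkB2, Bool.and_eq_true, Bool.not_eq_true', beq_eq_false_iff_ne, ne_eq] at hchk
  obtain ⟨⟨hd, hd'⟩, hdet⟩ := hchk
  have hC : ∀ n : ℕ, CI n a (r : ℤ) → CI n (3 - a) (3 - (r : ℤ)) := by
    intro n hn
    unfold CI at *
    rw [map_sub, hn, map_ofNat]; push_cast; ring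
  have hDD : ∀ n : ℕ, CI n (-1 : ℤ_[2]) (-1) := by
    intro n; unfold CI; rw [map_neg, map_one]; simp
  obtain ⟨α, hα, hα'⟩ := lift_L (p := 2) 2 4 4 (by norm_num) hr (hC _ hr) (hDD _) 14 (LB a)
    (LB_val a) hd
  obtain ⟨γ, hγ, hγ'⟩ := lift_M (p := 2) 2 4 4 (by norm_num) hr (hC _ hr) (hDD _) 14 (MB a)
    (MB_val a) hd'
  have hr4 : CI 4 a (r : ℤ) := CI_mono (by norm_num) hr
  have hrel : Rel ((LB a) ^ 14) ((MB a) ^ 14) m n := by
    refine Rel.trans 14 h fun k => ?_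
    rw [mul_zpow, ← zpow_natCast, ← zpow_natCast, ← zpow_mul, ← zpow_mul, ← zpow_mul, ← zpow_mul]
    congr 2
    · push_cast; ring
    · push_cast; ring
  have key := fun N => indep2 hr4 (hC _ hr4) (hDD _) ((LB a) ^ 14) ((MB a) ^ 14) α γ 1
    one_ne_zero (by rw [hα]; norm_num) (by rw [hγ]; norm_num) _ _ 1 hα' hγ'
    (by unfold CI; rw [map_one]; simp)
    (fun hdvd => hdet (Int.emod_eq_zero_of_dvd hdvd)) _ _
    (by simpa [Rel] using hrel) N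
  constructor
  · intro N
    filter_upwards [key N] with k hk
    simpa using hk.1
  · intro N
    filter_upwards [key N] with k hk
    simpa using hk.2

theorem indB3 (a : ℤ_[3]) (m n : ℕ → ℤ)
    (h : Rel (LB a) (MB a) m n) : Small 3 m ∧ Small 3 n := by
  obtain ⟨r, hr81, hr⟩ := exists_CI 4 a
  have hchk := chkB3_all ⟨r, by simpa using hr81⟩
  simp only [chkB3, Bool.and_eq_true, Bool.not_eq_true', beq_eq_false_iff_ne, ne_eq] at hchk
  obtain ⟨⟨hd, hd'⟩, hdet⟩ := hchk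
  have hC : ∀ n : ℕ, CI n a (r : ℤ) → CI n (3 - a) (3 - (r : ℤ)) := by
    intro n hn
    unfold CI at *
    rw [map_sub, hn, map_ofNat]; push_cast; ring
  have hDD : ∀ n : ℕ, CI n (-1 : ℤ_[3]) (-1) := by
    intro n; unfold CI; rw [map_neg, map_one]; simp
  obtain ⟨α, hα, hα'⟩ := lift_L (p := 3) 1 3 3 (by norm_num) hr (hC _ hr) (hDD _) (exB r) (LB a)
    (LB_val a) hd
  obtain ⟨γ, hγ, hγ'⟩ := lift_M (p := 3) 1 3 3 (by norm_num) hr (hC _ hr) (hDD _) (exB r) (MB a)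
    (MB_val a) hd'
  have hr3 : CI 3 a (r : ℤ) := CI_mono (by norm_num) hr
  have hrel : Rel ((LB a) ^ (exB r)) ((MB a) ^ (exB r)) m n := by
    refine Rel.trans (exB r) h fun k => ?_
    rw [mul_zpow, ← zpow_natCast, ← zpow_natCast, ← zpow_mul, ← zpow_mul, ← zpow_mul, ← zpow_mul]
    congr 2
    · ring
    · ring
  have key := fun N => indep3 hr3 (hC _ hr3) (hDD _) ((LB a) ^ (exB r)) ((MB a) ^ (exB r)) α γ 1
    one_ne_zero (by rw [hα]; norm_num) (by rw [hγ]; norm_num) _ _ 1 hα' hγ'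
    (by unfold CI; rw [map_one]; simp)
    (fun hdvd => hdet (Int.emod_eq_zero_of_dvd hdvd)) _ _
    (by simpa [Rel] using hrel) N
  constructor
  · intro N
    filter_upwards [key N] with k hk
    simpa using hk.1
  · intro N
    filter_upwards [key N] with k hk
    simpa using hk.2

end B

end Pool.Agent.H31.Leo
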