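import Pool.Agent.H31.Leo.Sextic

set_option autoImplicit false

namespace Pool.Agent.H31.Leo

open Filter Topology NumberField

section general

variable {k K : Type} [Field k] [NumberField k] [Field K] [NumberField K] [Algebra k K]

/-- multiplicative independence of two units -/
def MI (E H : (𝓞 K)ˣ) : Prop := ∀ m n : ℤ, E ^ m * H ^ n = 1 → m = 0 ∧ n = 0

theorem gen_of_mi (hdeg : Module.finrank k K = 3) (E H : (𝓞 K)ˣ) (hmi : MI E H)
    (hN : RingOfIntegers.norm k (E : 𝓞 K) = 1 ∨ RingOfIntegers.norm k (E : 𝓞 K) = -1) :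
    Gen k (E : 𝓞 K) := by
  refine ⟨hdeg, ?_⟩
  have hpr : Nat.Prime (Module.finrank k K) := by rw [hdeg]; exact Nat.prime_three
  have := IntermediateField.isSimpleOrder_of_finrank_prime k K hpr
  rcases eq_bot_or_eq_top (IntermediateField.adjoin k {((E : 𝓞 K) : K)}) with h | h
  · exfalso
    have h1 : ((E : 𝓞 K) : K) ∈ IntermediateField.adjoin k {((E : 𝓞 K) : K)} :=
      IntermediateField.mem_adjoin_simple_self k _
    rw [h, IntermediateField.mem_bot] at h1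
    obtain ⟨x, hx⟩ := h1
    have h2 : x ^ 3 = 1 ∨ x ^ 3 = -1 := by
      have h3 : Algebra.norm k ((E : 𝓞 K) : K) = x ^ 3 := by
        rw [← hx, Algebra.norm_algebraMap, hdeg]
      rw [← h3, ← RingOfIntegers.coe_norm]
      rcases hN with h4 | h4
      · left; rw [h4]; rfl
      · right; rw [h4]; exact (map_neg _ _).trans (by rw [map_one])
    have h3 : x ^ 6 = 1 := by
      have : x ^ 6 = (x ^ 3) ^ 2 := by ring
      rw [this]
      rcases h2 with h4 | h4 <;> rw [h4] <;> norm_num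
    have h4 : E ^ 6 = 1 := by
      apply Units.ext
      apply RingOfIntegers.ext
      rw [Units.val_pow_eq_pow_val]
      have h5 : ((((E : 𝓞 K) ^ 6 : 𝓞 K)) : K) = ((E : 𝓞 K) : K) ^ 6 := map_pow _ _ _
      rw [h5, ← hx, ← map_pow, h3, map_one]
      rfl
    have h5 := (hmi 6 0 (by rw [zpow_zero, mul_one]; exact h4)).1
    norm_num at h5
  · exact h

/-- if `E' = E⁻¹`, `H' = - H E⁻¹` are `p`-adically independent then so are `E, H` -/
theorem back {p : ℕ} [hp : Fact p.Prime] (E H : (𝓞 K)ˣ)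
    (h : ∀ m n : ℕ → ℤ, RelK p E⁻¹ (-(H * E⁻¹)) m n → Small p m ∧ Small p n)
    (m n : ℕ → ℤ) (hrel : RelK p E H m n) : Small p m ∧ Small p n := by
  have h1 := h (fun i => -(2 * (m i + n i))) (fun i => 2 * n i) (by
    intro N
    filter_upwards [hrel N] with i hi
    have h2 : (E⁻¹) ^ (-(2 * (m i + n i))) * (-(H * E⁻¹)) ^ (2 * n i) = (E ^ m i * H ^ n i) ^ (2 : ℤ) := by
      rw [zpow_mul (-(H * E⁻¹)) 2 (n i)]
      have h3 : (-(H * E⁻¹)) ^ (2 : ℤ) = (H * E⁻¹) ^ (2 : ℤ) := by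
        rw [show (2 : ℤ) = ((2 : ℕ) : ℤ) by norm_num, zpow_natCast, zpow_natCast, neg_sq]
      rw [h3, ← zpow_mul, mul_zpow, mul_zpow, inv_zpow', inv_zpow', neg_neg, ← zpow_mul, ← zpow_mul,
        mul_comm (H ^ (2 * n i)), ← mul_assoc, ← zpow_add]
      congr 2
      · ring
      · ring
    rw [h2]
    exact unit_zpow_dvd _ _ hi 2)
  obtain ⟨h2, h3⟩ := h1
  have hn : Small p n := small_of_mul (e := 2) (by norm_num) (by simpa [mul_comm] using h3)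
  refine ⟨small_of_mul (e := 2) (by norm_num) ?_, hn⟩
  intro N
  filter_upwards [h2 N, h3 N] with i hi1 hi2
  have : ((m i * 2 : ℤ) : ℤ_[p]) = -((-(2 * (m i + n i)) : ℤ) : ℤ_[p]) - ((2 * n i : ℤ) : ℤ_[p]) := by
    push_cast; ring
  rw [this]
  exact dvd_sub ((dvd_neg).2 hi1) hi2

theorem relK_symm {p : ℕ} {E H : (𝓞 K)ˣ} {m n : ℕ → ℤ} (h : RelK p E H m n) : RelK p H E n m := by
  intro N
  filter_upwards [h N] with i hi
  rw [mul_comm]; exact hi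

theorem mi_symm {E H : (𝓞 K)ˣ} (h : MI E H) : MI H E := by
  intro m n hmn
  rw [mul_comm] at hmn
  exact (h n m hmn).symm

theorem mi_inv {E H : (𝓞 K)ˣ} (h : MI E H) : MI E⁻¹ (-(H * E⁻¹)) := by
  intro m n hmn
  have h1 : (E⁻¹ ^ m * (-(H * E⁻¹)) ^ n) ^ (2 : ℤ) = 1 := by rw [hmn, one_zpow]
  have h2 : (E⁻¹ ^ m * (-(H * E⁻¹)) ^ n) ^ (2 : ℤ) = E ^ (-(2 * m) - 2 * n) * H ^ (2 * n) := by
    rw [mul_zpow, ← zpow_mul, ← zpow_mul, mul_comm n 2, zpow_mul (-(H * E⁻¹)) 2 n]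
    have h3 : (-(H * E⁻¹)) ^ (2 : ℤ) = (H * E⁻¹) ^ (2 : ℤ) := by
      rw [show (2 : ℤ) = ((2 : ℕ) : ℤ) by norm_num, zpow_natCast, zpow_natCast, neg_sq]
    rw [h3, ← zpow_mul, mul_zpow, inv_zpow', inv_zpow', mul_comm (H ^ (2 * n)), ← mul_assoc,
      ← zpow_add]
    congr 2
    ring
  rw [h2] at h1
  obtain ⟨h3, h4⟩ := h _ _ h1
  constructor <;> omega

/-- **`p`-adic independence of exceptional units**, normalised case -/
theorem indep_AB {p : ℕ} [hp : Fact p.Prime] (h23 : p = 2 ∨ p = 3) (φ : 𝓞 k →+* ℤ_[p])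
    (hdeg : Module.finrank k K = 3) (E H : (𝓞 K)ˣ) (hEH : (E : 𝓞 K) + H = 1) (hmi : MI E H)
    (hN : (RingOfIntegers.norm k (E : 𝓞 K) = 1 ∧ RingOfIntegers.norm k (H : 𝓞 K) = 1) ∨
      (RingOfIntegers.norm k (E : 𝓞 K) = -1 ∧ RingOfIntegers.norm k (H : 𝓞 K) = -1))
    (m n : ℕ → ℤ) (hrel : RelK p E H m n) : Small p m ∧ Small p n := by
  rcases hN with ⟨h1, h2⟩ | ⟨h1, h2⟩
  · obtain ⟨b, hb, himp⟩ := typeA h23 φ (phi_inj φ) E H hEH (gen_of_mi hdeg E H hmi (Or.inl h1)) h1 h2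
    refine himp (fun i hi => ?_) m n hrel
    have hs := dat_spec b i
    rw [hi, map_zero, zero_mul, add_zero] at hs
    have hs' : (LA b) ^ (dat i).xe * (MA b) ^ (dat i).ye = 1 := Units.ext hs
    have e1 : Units.map (psi (E : 𝓞 K) hb : Cub (𝓞 k) b (-(b + 1)) 1 →* 𝓞 K) (LA b) = E :=
      Units.ext (psi_L _ hb)
    have e2 : Units.map (psi (E : 𝓞 K) hb : Cub (𝓞 k) b (-(b + 1)) 1 →* 𝓞 K) (MA b) = H := by
      apply Units.ext
      show psi (E : 𝓞 K) hb ((MA b : (RA (𝓞 k) b)ˣ) : RA (𝓞 k) b) = H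
      rw [MA_val, map_sub, map_one, psi_L, ← hEH]; ring
    have h3 := congrArg (Units.map (psi (E : 𝓞 K) hb : Cub (𝓞 k) b (-(b + 1)) 1 →* 𝓞 K)) hs'
    rw [map_mul, map_zpow, map_zpow, e1, e2, map_one] at h3
    exact ye_ne i (hmi _ _ h3).2
  · exact typeB h23 φ (phi_inj φ) E H hEH (gen_of_mi hdeg E H hmi (Or.inr h1)) h1 h2 m n hrel

theorem inv_exc {U V : (𝓞 K)ˣ} (hUV : (U : 𝓞 K) + V = 1) :
    ((U⁻¹ : (𝓞 K)ˣ) : 𝓞 K) + ((-(V * U⁻¹) : (𝓞 K)ˣ) : 𝓞 K) = 1 := by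
  push_cast
  have h1 : (U : 𝓞 K) * ((U⁻¹ : (𝓞 K)ˣ) : 𝓞 K) = 1 := Units.mul_inv U
  have h2 : (V : 𝓞 K) = 1 - U := by rw [← hUV]; ring
  rw [h2]
  linear_combination h1

theorem inv_norm (hdeg : Module.finrank k K = 3) {U V : (𝓞 K)ˣ}
    (hU : RingOfIntegers.norm k (U : 𝓞 K) = 1) (hV : RingOfIntegers.norm k (V : 𝓞 K) = -1) :
    RingOfIntegers.norm k ((U⁻¹ : (𝓞 K)ˣ) : 𝓞 K) = 1 ∧
      RingOfIntegers.norm k ((-(V * U⁻¹) : (𝓞 K)ˣ) : 𝓞 K) = 1 := by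
  have hinv : RingOfIntegers.norm k ((U⁻¹ : (𝓞 K)ˣ) : 𝓞 K) = 1 := by
    have h1 : RingOfIntegers.norm k ((U : 𝓞 K) * ((U⁻¹ : (𝓞 K)ˣ) : 𝓞 K)) = 1 := by
      rw [Units.mul_inv, map_one]
    rw [map_mul, hU, one_mul] at h1
    exact h1
  refine ⟨hinv, ?_⟩
  rw [Units.val_neg, neg_eq_neg_one_mul, map_mul, norm_neg_one hdeg, Units.val_mul, map_mul, hV, hinv]
  norm_num

/-- **`p`-adic independence of exceptional units** -/
theorem indep_general {p : ℕ} [hp : Fact p.Prime] (h23 : p = 2 ∨ p = 3) (φ : 𝓞 k →+* ℤ_[p])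
    (hdeg : Module.finrank k K = 3) (E H : (𝓞 K)ˣ) (hEH : (E : 𝓞 K) + H = 1) (hmi : MI E H)
    (hNE : RingOfIntegers.norm k (E : 𝓞 K) = 1 ∨ RingOfIntegers.norm k (E : 𝓞 K) = -1)
    (hNH : RingOfIntegers.norm k (H : 𝓞 K) = 1 ∨ RingOfIntegers.norm k (H : 𝓞 K) = -1)
    (m n : ℕ → ℤ) (hrel : RelK p E H m n) : Small p m ∧ Small p n := by
  rcases hNE with h1 | h1 <;> rcases hNH with h2 | h2
  · exact indep_AB h23 φ hdeg E H hEH hmi (Or.inl ⟨h1, h2⟩) m n hrel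
  · exact back E H (fun m n hmn => indep_AB h23 φ hdeg _ _ (inv_exc hEH) (mi_inv hmi)
      (Or.inl (inv_norm hdeg h1 h2)) m n hmn) m n hrel
  · have hHE : (H : 𝓞 K) + E = 1 := by rw [add_comm]; exact hEH
    exact (back H E (fun m n hmn => indep_AB h23 φ hdeg _ _ (inv_exc hHE) (mi_inv (mi_symm hmi))
      (Or.inl (inv_norm hdeg h2 h1)) m n hmn) n m (relK_symm hrel)).symm
  · exact indep_AB h23 φ hdeg E H hEH hmi (Or.inr ⟨h1, h2⟩) m n hrel

/-- the integral elements of `k` go to `ℤ_p` -/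
theorem exists_phi {p : ℕ} [hp : Fact p.Prime] (f : k →+* ℚ_[p]) : Nonempty (𝓞 k →+* ℤ_[p]) := by
  have h : ∀ x : 𝓞 k, f (algebraMap (𝓞 k) k x) ∈ PadicInt.subring p := by
    intro x
    have h1 : IsIntegral ℤ (x : k) := RingOfIntegers.isIntegral_coe x
    have h2 : IsIntegral ℤ (f (x : k)) := h1.map (f.toIntAlgHom)
    have h3 : IsIntegral ℤ_[p] (f (x : k)) := h2.tower_top
    obtain ⟨y, hy⟩ := IsIntegrallyClosed.isIntegral_iff.mp h3
    show ‖f (algebraMap (𝓞 k) k x)‖ ≤ 1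
    have h4 : f (algebraMap (𝓞 k) k x) = (y : ℚ_[p]) := hy.symm
    rw [h4]
    exact y.2
  exact ⟨(f.comp (algebraMap (𝓞 k) k)).codRestrict (PadicInt.subring p) h⟩

/-- **Leopoldt's conjecture at `2` and `3` for cubic extensions of imaginary quadratic fields.** -/
theorem sextic_mi (p : ℕ) [hp : Fact p.Prime] (h23 : p = 2 ∨ p = 3) (hk : Units.rank k = 0)
    (hk2 : Module.finrank ℚ k = 2) (φ : 𝓞 k →+* ℤ_[p]) (hdeg : Module.finrank k K = 3)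
    (E H : (𝓞 K)ˣ) (hEH : (E : 𝓞 K) + H = 1) (hmi : MI E H) : Leopoldt K p := by
  have hr2 := rank_sextic hk hk2 hdeg
  have hu : ∀ u : (𝓞 k)ˣ, (u : 𝓞 k) = 1 ∨ (u : 𝓞 k) = -1 := units_k h23 hk φ
  exact leopoldt_of_pair p hr2 E H (indep_general h23 φ hdeg E H hEH hmi
    (hu (Units.map (RingOfIntegers.norm k) E)) (hu (Units.map (RingOfIntegers.norm k) H)))

end general

end Pool.Agent.H31.Leo
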