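import Pool.Agent.H31.Leo.Seq

set_option autoImplicit false

namespace Pool.Agent.H31.Leo

open Filter Topology

/-! ### evaluation of polynomials given by lists -/

/-- the polynomial with the coefficients `l` at `a` -/
def ev {R : Type} [CommRing R] (l : List ℤ) (a : R) : R :=
  l.foldr (fun (c : ℤ) (s : R) => (c : R) + a * s) 0

theorem map_ev {R R' : Type} [CommRing R] [CommRing R'] (f : R →+* R') (l : List ℤ) (a : R) :
    f (ev l a) = ev l (f a) := by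
  induction l with
  | nil => simp [ev]
  | cons c l ih =>
    have h1 : ∀ {T : Type} [CommRing T] (x : T), ev (c :: l) x = (c : T) + x * ev l x := by
      intro T _ x; rfl
    rw [h1, h1, map_add, map_mul, ih, map_intCast]

/-! ### congruences between `ℤ_p` and `ℤ` -/

section cong

variable {p : ℕ} [hp : Fact p.Prime]

/-- `x ≡ r` modulo `p^n` -/
def CI (n : ℕ) (x : ℤ_[p]) (r : ℤ) : Prop := PadicInt.toZModPow n x = (r : ZMod (p ^ n))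

theorem CI_iff (n : ℕ) (x : ℤ_[p]) (r : ℤ) : CI n x r ↔ (p : ℤ_[p]) ^ n ∣ x - (r : ℤ_[p]) := by
  unfold CI
  rw [← Ideal.mem_span_singleton, ← PadicInt.ker_toZModPow, RingHom.mem_ker, map_sub, sub_eq_zero,
    map_intCast]

theorem CI_mono {n m : ℕ} (h : n ≤ m) {x : ℤ_[p]} {r : ℤ} (hx : CI m x r) : CI n x r :=
  (CI_iff _ _ _).2 ((pow_dvd_pow _ h).trans ((CI_iff _ _ _).1 hx))

theorem CI_ev (n : ℕ) {x : ℤ_[p]} {r : ℤ} (h : CI n x r) (l : List ℤ) : CI n (ev l x) (ev l r) := by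
  unfold CI at *
  rw [map_ev, h]
  have := map_ev (Int.castRingHom (ZMod (p ^ n))) l r
  simp only [eq_intCast] at this
  exact this.symm

theorem exists_CI (n : ℕ) (x : ℤ_[p]) : ∃ r : ℕ, r < p ^ n ∧ CI n x r := by
  have : NeZero (p ^ n) := ⟨pow_ne_zero _ hp.out.ne_zero⟩
  refine ⟨(PadicInt.toZModPow n x).val, ZMod.val_lt _, ?_⟩
  unfold CI
  simp

variable {b c d : ℤ_[p]} {br cr dr : ℤ}

/-- `w ≡ wr` modulo `p^n`, coordinatewise -/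
def CC (n : ℕ) (w : Cub ℤ_[p] b c d) (wr : Cub ℤ br cr dr) : Prop :=
  CI n w.x wr.x ∧ CI n w.y wr.y ∧ CI n w.z wr.z

theorem CC_iff (n : ℕ) (hb : CI n b br) (hc : CI n c cr) (hd : CI n d dr)
    (w : Cub ℤ_[p] b c d) (wr : Cub ℤ br cr dr) : CC n w wr ↔
    Cub.map (PadicInt.toZModPow n) rfl rfl rfl w =
      Cub.map (Int.castRingHom (ZMod (p ^ n))) hb.symm hc.symm hd.symm wr := by
  unfold CC CI
  rw [Cub.ext_iff]
  simp

theorem CC_div {s M : ℕ} {w : Cub ℤ_[p] b c d} {wr : Cub ℤ br cr dr}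
    (h : CC (s + M) w (Cub.of ((p : ℤ) ^ s) * wr)) :
    ∃ v : Cub ℤ_[p] b c d, w = Cub.of ((p : ℤ_[p]) ^ s) * v ∧ CC M v wr := by
  obtain ⟨h1, h2, h3⟩ := h
  rw [Cub.of_mul_x] at h1
  rw [Cub.of_mul_y] at h2
  rw [Cub.of_mul_z] at h3
  have key : ∀ (x : ℤ_[p]) (r : ℤ), CI (s + M) x ((p : ℤ) ^ s * r) →
      ∃ v : ℤ_[p], x = (p : ℤ_[p]) ^ s * v ∧ CI M v r := by
    intro x r hx
    rw [CI_iff] at hx
    obtain ⟨t, ht⟩ := hx
    refine ⟨r + (p : ℤ_[p]) ^ M * t, ?_, ?_⟩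
    · push_cast at ht
      linear_combination ht + 0 * pow_add (p : ℤ_[p]) s M
    · rw [CI_iff]
      exact ⟨t, by ring⟩
  obtain ⟨x, hx, hx'⟩ := key _ _ h1
  obtain ⟨y, hy, hy'⟩ := key _ _ h2
  obtain ⟨z, hz, hz'⟩ := key _ _ h3
  refine ⟨⟨x, y, z⟩, ?_, hx', hy', hz'⟩
  ext
  · rw [Cub.of_mul_x, hx]
  · rw [Cub.of_mul_y, hy]
  · rw [Cub.of_mul_z, hz]

end cong

section two

variable {b c d : ℤ_[2]} {br cr dr : ℤ}

/-- independence from a computation modulo `16` -/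
theorem indep2 (hb : CI 4 b br) (hc : CI 4 c cr) (hd : CI 4 d dr)
    (X Y : (Cub ℤ_[2] b c d)ˣ) (α γ : Cub ℤ_[2] b c d) (τ : ℤ_[2]) (hτ : τ ≠ 0)
    (hX : (X : Cub ℤ_[2] b c d) = 1 + Cub.of 4 * α)
    (hY : (Y : Cub ℤ_[2] b c d) = 1 + Cub.of (4 * τ) * γ)
    (xr gr : Cub ℤ br cr dr) (tr : ℤ) (hα : CC 4 α xr) (hγ : CC 4 γ gr) (ht : CI 4 τ tr)
    (hdet : ¬ (16 : ℤ) ∣ det (seq2 1 xr 3) (seq2 tr gr 3))
    (m n : ℕ → ℤ)
    (hmn : ∀ N : ℕ, ∀ᶠ k in atTop, Cub.of ((2 : ℤ_[2]) ^ N) ∣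
      ((X ^ m k * Y ^ n k : (Cub ℤ_[2] b c d)ˣ) : Cub ℤ_[2] b c d) - 1) (N : ℕ) :
    ∀ᶠ k in atTop, (2 : ℤ_[2]) ^ N ∣ ((m k : ℤ) : ℤ_[2]) ∧ (2 : ℤ_[2]) ^ N ∣ ((n k : ℤ) : ℤ_[2]) := by
  have h2 : ((2 : ℕ) : ℤ_[2]) = 2 := by norm_num
  have h20 : (2 : ℤ_[2]) ≠ 0 := by rw [← h2]; exact p_ne
  have h40 : (4 : ℤ_[2]) ≠ 0 := by
    have : (4 : ℤ_[2]) = 2 * 2 := by norm_num
    rw [this]; exact mul_ne_zero h20 h20
  have h := core X Y 4 (4 * τ) h40 (mul_ne_zero h40 hτ) (seq2 1 α) (seq2 τ γ) 3 4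
    (fun j => by
      have := seq2_spec (1 : ℤ_[2]) α X (by rw [hX]; simp) j
      rw [this]; simp)
    (fun j => by
      have := seq2_spec τ γ Y hY j
      rw [this]; simp)
    (fun j hj => by
      intro hdj
      rw [h2] at hdj
      have h3 := det_congr (2 ^ 4 : ℤ_[2]) (seq2_stable (1 : ℤ_[2]) α 3 j hj) (seq2_stable τ γ 3 j hj)
      have h4 : (2 : ℤ_[2]) ^ 4 ∣ det (seq2 (1 : ℤ_[2]) α 3) (seq2 τ γ 3) := by
        have h5 := dvd_sub hdj h3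
        simpa using h5
      rw [CC_iff 4 hb hc hd] at hα hγ
      have h6 := map_det (PadicInt.toZModPow 4) rfl rfl rfl (seq2 (1 : ℤ_[2]) α 3) (seq2 τ γ 3)
      rw [map_seq2, map_seq2, hα, hγ, ht, map_one] at h6
      have h7 := map_det (Int.castRingHom (ZMod (2 ^ 4))) hb.symm hc.symm hd.symm
        (seq2 1 xr 3) (seq2 tr gr 3)
      rw [map_seq2, map_seq2, map_one] at h7
      have h8 : PadicInt.toZModPow 4 (det (seq2 (1 : ℤ_[2]) α 3) (seq2 τ γ 3)) = 0 := by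
        rw [← RingHom.mem_ker, PadicInt.ker_toZModPow, Ideal.mem_span_singleton, h2]
        exact h4
      rw [h6] at h8
      have h9 : ((det (seq2 1 xr 3) (seq2 tr gr 3) : ℤ) : ZMod (2 ^ 4)) = 0 := by
        rw [← h8]
        exact h7
      rw [ZMod.intCast_zmod_eq_zero_iff_dvd] at h9
      apply hdet
      exact_mod_cast h9)
    m n (by simpa [h2] using hmn) N
  simpa [h2] using h

end two

section three

variable {b c d : ℤ_[3]} {br cr dr : ℤ}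

/-- independence from a computation modulo `27` -/
theorem indep3 (hb : CI 3 b br) (hc : CI 3 c cr) (hd : CI 3 d dr)
    (X Y : (Cub ℤ_[3] b c d)ˣ) (α γ : Cub ℤ_[3] b c d) (τ : ℤ_[3]) (hτ : τ ≠ 0)
    (hX : (X : Cub ℤ_[3] b c d) = 1 + Cub.of 3 * α)
    (hY : (Y : Cub ℤ_[3] b c d) = 1 + Cub.of (3 * τ) * γ)
    (xr gr : Cub ℤ br cr dr) (tr : ℤ) (hα : CC 3 α xr) (hγ : CC 3 γ gr) (ht : CI 3 τ tr)
    (hdet : ¬ (27 : ℤ) ∣ det (seq3 1 xr 2) (seq3 tr gr 2))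
    (m n : ℕ → ℤ)
    (hmn : ∀ N : ℕ, ∀ᶠ k in atTop, Cub.of ((3 : ℤ_[3]) ^ N) ∣
      ((X ^ m k * Y ^ n k : (Cub ℤ_[3] b c d)ˣ) : Cub ℤ_[3] b c d) - 1) (N : ℕ) :
    ∀ᶠ k in atTop, (3 : ℤ_[3]) ^ N ∣ ((m k : ℤ) : ℤ_[3]) ∧ (3 : ℤ_[3]) ^ N ∣ ((n k : ℤ) : ℤ_[3]) := by
  have h2 : ((3 : ℕ) : ℤ_[3]) = 3 := by norm_num
  have h20 : (3 : ℤ_[3]) ≠ 0 := by rw [← h2]; exact p_ne
  have h := core X Y 3 (3 * τ) h20 (mul_ne_zero h20 hτ) (seq3 1 α) (seq3 τ γ) 2 3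
    (fun j => by
      have := seq3_spec (1 : ℤ_[3]) α X (by rw [hX]; simp) j
      rw [this]; simp)
    (fun j => by
      have := seq3_spec τ γ Y hY j
      rw [this]; simp)
    (fun j hj => by
      intro hdj
      rw [h2] at hdj
      have h3 := det_congr (3 ^ 3 : ℤ_[3]) (seq3_stable (1 : ℤ_[3]) α 2 j hj) (seq3_stable τ γ 2 j hj)
      have h4 : (3 : ℤ_[3]) ^ 3 ∣ det (seq3 (1 : ℤ_[3]) α 2) (seq3 τ γ 2) := by
        have h5 := dvd_sub hdj h3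
        simpa using h5
      rw [CC_iff 3 hb hc hd] at hα hγ
      have h6 := map_det (PadicInt.toZModPow 3) rfl rfl rfl (seq3 (1 : ℤ_[3]) α 2) (seq3 τ γ 2)
      rw [map_seq3, map_seq3, hα, hγ, ht, map_one] at h6
      have h7 := map_det (Int.castRingHom (ZMod (3 ^ 3))) hb.symm hc.symm hd.symm
        (seq3 1 xr 2) (seq3 tr gr 2)
      rw [map_seq3, map_seq3, map_one] at h7
      have h8 : PadicInt.toZModPow 3 (det (seq3 (1 : ℤ_[3]) α 2) (seq3 τ γ 2)) = 0 := by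
        rw [← RingHom.mem_ker, PadicInt.ker_toZModPow, Ideal.mem_span_singleton, h2]
        exact h4
      rw [h6] at h8
      have h9 : ((det (seq3 1 xr 2) (seq3 tr gr 2) : ℤ) : ZMod (3 ^ 3)) = 0 := by
        rw [← h8]
        exact h7
      rw [ZMod.intCast_zmod_eq_zero_iff_dvd] at h9
      apply hdet
      exact_mod_cast h9)
    m n (by simpa [h2] using hmn) N
  simpa [h2] using h

end three

end Pool.Agent.H31.Leo
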