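import Pool.Agent.H31.Leo.Ind2

set_option autoImplicit false

namespace Pool.Agent.H31.Leo

open Filter Topology NumberField Polynomial

section order

variable {k K : Type} [Field k] [NumberField k] [Field K] [NumberField K] [Algebra k K]

/-- the ring homomorphism `L ↦ ε` -/
noncomputable def psi {b c d : 𝓞 k} (ε : 𝓞 K)
    (h : ε ^ 3 = algebraMap (𝓞 k) (𝓞 K) b * ε ^ 2 + algebraMap (𝓞 k) (𝓞 K) c * ε +
      algebraMap (𝓞 k) (𝓞 K) d) : Cub (𝓞 k) b c d →+* 𝓞 K where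
  toFun w := algebraMap (𝓞 k) (𝓞 K) w.x + algebraMap (𝓞 k) (𝓞 K) w.y * ε +
    algebraMap (𝓞 k) (𝓞 K) w.z * ε ^ 2
  map_one' := by simp
  map_zero' := by simp
  map_add' u v := by simp; ring
  map_mul' u v := by
    simp only [Cub.mul_x, Cub.mul_y, Cub.mul_z, map_add, map_mul]
    set B := algebraMap (𝓞 k) (𝓞 K) b
    set C := algebraMap (𝓞 k) (𝓞 K) c
    set D := algebraMap (𝓞 k) (𝓞 K) d
    set ux := algebraMap (𝓞 k) (𝓞 K) u.x
    set uy := algebraMap (𝓞 k) (𝓞 K) u.y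
    set uz := algebraMap (𝓞 k) (𝓞 K) u.z
    set vx := algebraMap (𝓞 k) (𝓞 K) v.x
    set vy := algebraMap (𝓞 k) (𝓞 K) v.y
    set vz := algebraMap (𝓞 k) (𝓞 K) v.z
    linear_combination (-(uy * vz + uz * vy) - (uz * vz) * ε - (uz * vz) * B) * h

theorem psi_apply {b c d : 𝓞 k} (ε : 𝓞 K)
    (h : ε ^ 3 = algebraMap (𝓞 k) (𝓞 K) b * ε ^ 2 + algebraMap (𝓞 k) (𝓞 K) c * ε +
      algebraMap (𝓞 k) (𝓞 K) d) (w : Cub (𝓞 k) b c d) :
    psi ε h w = algebraMap (𝓞 k) (𝓞 K) w.x + algebraMap (𝓞 k) (𝓞 K) w.y * ε +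
    algebraMap (𝓞 k) (𝓞 K) w.z * ε ^ 2 := rfl

theorem psi_of {b c d : 𝓞 k} (ε : 𝓞 K)
    (h : ε ^ 3 = algebraMap (𝓞 k) (𝓞 K) b * ε ^ 2 + algebraMap (𝓞 k) (𝓞 K) c * ε +
      algebraMap (𝓞 k) (𝓞 K) d) (r : 𝓞 k) : psi ε h (Cub.of r) = algebraMap (𝓞 k) (𝓞 K) r := by
  rw [psi_apply]; simp

theorem psi_L {b c d : 𝓞 k} (ε : 𝓞 K)
    (h : ε ^ 3 = algebraMap (𝓞 k) (𝓞 K) b * ε ^ 2 + algebraMap (𝓞 k) (𝓞 K) c * ε +
      algebraMap (𝓞 k) (𝓞 K) d) : psi ε h Cub.L = ε := by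
  rw [psi_apply]; simp

/-- `K` is generated by `ε`, of degree three over `k` -/
structure Gen (k : Type) {K : Type} [Field k] [NumberField k] [Field K] [NumberField K]
    [Algebra k K] (ε : 𝓞 K) : Prop where
  deg : Module.finrank k K = 3
  gen : IntermediateField.adjoin k {(ε : K)} = ⊤

theorem isInt (x : 𝓞 K) : IsIntegral k (x : K) := by
  have h1 : IsIntegral ℤ (x : K) := x.2
  exact h1.tower_top

theorem natDegree_minpoly {ε : 𝓞 K} (hg : Gen k ε) : (minpoly k (ε : K)).natDegree = 3 := by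
  rw [← IntermediateField.adjoin.finrank (isInt ε), hg.gen, IntermediateField.finrank_top', hg.deg]

/-- `1, ε, ε²` are independent -/
theorem indep_coeff {ε : 𝓞 K} (hg : Gen k ε) (x y z : k)
    (h : algebraMap k K x + algebraMap k K y * (ε : K) + algebraMap k K z * (ε : K) ^ 2 = 0) :
    x = 0 ∧ y = 0 ∧ z = 0 := by
  set P : k[X] := C x + C y * X + C z * X ^ 2 with hP
  have h1 : aeval (ε : K) P = 0 := by
    rw [hP]; simp only [map_add, map_mul, aeval_C, aeval_X, map_pow]; exact h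
  have h2 : P = 0 := by
    by_contra hne
    have h3 := Polynomial.natDegree_le_of_dvd (minpoly.dvd k (ε : K) h1) hne
    have h4 : P.natDegree ≤ 2 := by
      rw [hP]; compute_degree
    rw [natDegree_minpoly hg] at h3
    omega
  have hx : P.coeff 0 = x := by rw [hP]; simp [coeff_X, coeff_C]
  have hy : P.coeff 1 = y := by rw [hP]; simp [coeff_X, coeff_C]
  have hz : P.coeff 2 = z := by rw [hP]; simp [coeff_X, coeff_C]
  rw [h2] at hx hy hz
  simp only [Polynomial.coeff_zero] at hx hy hz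
  exact ⟨hx.symm, hy.symm, hz.symm⟩

theorem coe_algebraMap (r : 𝓞 k) : ((algebraMap (𝓞 k) (𝓞 K) r : 𝓞 K) : K) = algebraMap k K (r : k) :=
  rfl

theorem psi_inj {b c d : 𝓞 k} {ε : 𝓞 K} (hg : Gen k ε)
    (h : ε ^ 3 = algebraMap (𝓞 k) (𝓞 K) b * ε ^ 2 + algebraMap (𝓞 k) (𝓞 K) c * ε +
      algebraMap (𝓞 k) (𝓞 K) d) : Function.Injective (psi ε h) := by
  rw [injective_iff_map_eq_zero]
  intro w hw
  rw [psi_apply] at hw
  have h1 := congrArg (fun t : 𝓞 K => (t : K)) hw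
  simp only [map_add, map_mul, map_pow, map_zero] at h1
  obtain ⟨hx, hy, hz⟩ := indep_coeff hg (w.x : k) (w.y : k) (w.z : k) h1
  have key : ∀ r : 𝓞 k, (r : k) = 0 → r = 0 := fun r hr => by
    apply RingOfIntegers.ext; rw [hr]; rfl
  exact Cub.ext (key _ hx) (key _ hy) (key _ hz)

theorem exists_mul {b c d : 𝓞 k} {ε : 𝓞 K} (hg : Gen k ε)
    (h : ε ^ 3 = algebraMap (𝓞 k) (𝓞 K) b * ε ^ 2 + algebraMap (𝓞 k) (𝓞 K) c * ε +
      algebraMap (𝓞 k) (𝓞 K) d) :
    ∃ m : 𝓞 k, m ≠ 0 ∧ ∀ x : 𝓞 K, ∃ y : Cub (𝓞 k) b c d, psi ε h y = algebraMap (𝓞 k) (𝓞 K) m * x := by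
  have hi : IsIntegral (𝓞 k) (ε : K) := by
    have h1 : IsIntegral ℤ (ε : K) := ε.2
    exact h1.tower_top
  have hiq : IsIntegral k (ε : K) := isInt ε
  have htop : Algebra.adjoin k {(ε : K)} = ⊤ := by
    rw [← IntermediateField.adjoin_simple_toSubalgebra_of_isAlgebraic hiq.isAlgebraic, hg.gen]
    rfl
  set Bs := PowerBasis.ofAdjoinEqTop hiq htop with hBs
  have hgen : Bs.gen = (ε : K) := by
    rw [hBs]; exact PowerBasis.ofAdjoinEqTop_gen _ _
  have hgi : IsIntegral (𝓞 k) Bs.gen := by rw [hgen]; exact hi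
  have hdi : IsIntegral (𝓞 k) (Algebra.discr k Bs.basis) :=
    Algebra.discr_isIntegral k fun i => by
      rw [Bs.basis_eq_pow]; exact hgi.pow _
  obtain ⟨m, hm⟩ := IsIntegrallyClosed.isIntegral_iff.mp hdi
  have hd0 := Algebra.discr_not_zero_of_basis k Bs.basis
  refine ⟨m, ?_, ?_⟩
  · rintro rfl
    rw [map_zero] at hm
    exact hd0 hm.symm
  · intro x
    have hxi : IsIntegral (𝓞 k) (x : K) := by
      have h1 : IsIntegral ℤ (x : K) := x.2
      exact h1.tower_top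
    have h1 := Algebra.discr_mul_isIntegral_mem_adjoin (R := 𝓞 k) (K := k) (B := Bs) hgi
      (z := (x : K)) hxi
    rw [hgen, Algebra.adjoin_singleton_eq_range_aeval] at h1
    obtain ⟨P, hP⟩ := h1
    refine ⟨P.eval₂ Cub.of Cub.L, ?_⟩
    apply RingOfIntegers.ext
    have hP' : aeval (ε : K) P = Algebra.discr k Bs.basis • (x : K) := hP
    have h2 : (psi ε h (P.eval₂ Cub.of Cub.L) : 𝓞 K) = P.eval₂ (algebraMap (𝓞 k) (𝓞 K)) ε := by
      rw [Polynomial.hom_eval₂, psi_L]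
      congr 1
      ext r
      rw [RingHom.comp_apply, psi_of]
    rw [h2]
    have h3 : ((P.eval₂ (algebraMap (𝓞 k) (𝓞 K)) ε : 𝓞 K) : K) = aeval (ε : K) P := by
      rw [aeval_def]
      exact (Polynomial.hom_eval₂ P (algebraMap (𝓞 k) (𝓞 K)) (algebraMap (𝓞 K) K) ε).trans rfl
    rw [h3, hP', ← hm]
    rw [Algebra.smul_def]
    rfl

/-- the coefficients -/
theorem exists_coeff {ε : 𝓞 K} (hg : Gen k ε) : ∃ b c d : 𝓞 k,
    ε ^ 3 = algebraMap (𝓞 k) (𝓞 K) b * ε ^ 2 + algebraMap (𝓞 k) (𝓞 K) c * ε +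
      algebraMap (𝓞 k) (𝓞 K) d := by
  have hi : IsIntegral (𝓞 k) (ε : K) := by
    have h1 : IsIntegral ℤ (ε : K) := ε.2
    exact h1.tower_top
  set P := minpoly (𝓞 k) (ε : K) with hP
  have h1 : P.Monic := minpoly.monic hi
  have h2 : minpoly k (ε : K) = P.map (algebraMap (𝓞 k) k) :=
    minpoly.isIntegrallyClosed_eq_field_fractions' k hi
  have h3 : P.natDegree = 3 := by
    rw [← natDegree_minpoly hg, h2, h1.natDegree_map]
  have h4 : aeval (ε : K) P = 0 := minpoly.aeval _ _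
  have h5 : P = X ^ 3 + C (P.coeff 2) * X ^ 2 + C (P.coeff 1) * X + C (P.coeff 0) := by
    have h6 := P.as_sum_range_C_mul_X_pow
    rw [h3] at h6
    simp only [Finset.sum_range_succ, Finset.sum_range_zero, zero_add, pow_zero, mul_one,
      pow_one] at h6
    have h7 : P.coeff 3 = 1 := by rw [← h3]; exact h1
    rw [h7] at h6
    conv_lhs => rw [h6]
    rw [C_1]
    ring
  refine ⟨-P.coeff 2, -P.coeff 1, -P.coeff 0, ?_⟩
  apply RingOfIntegers.ext
  rw [h5] at h4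
  simp only [map_add, map_mul, map_pow, aeval_X, aeval_C] at h4
  simp only [map_neg, map_add, map_mul, map_pow]
  have e : ∀ r : 𝓞 k, algebraMap (𝓞 K) K (algebraMap (𝓞 k) (𝓞 K) r) = algebraMap (𝓞 k) K r :=
    fun r => rfl
  rw [e, e, e]
  linear_combination h4

/-- the norm of a generator -/
theorem norm_gen {ξ : K} (hdeg : Module.finrank k K = 3)
    (hgen : IntermediateField.adjoin k {ξ} = ⊤) (b c d : k)
    (h : ξ ^ 3 = algebraMap k K b * ξ ^ 2 + algebraMap k K c * ξ + algebraMap k K d) :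
    Algebra.norm k ξ = d := by
  have hi : IsIntegral k ξ := Algebra.IsIntegral.isIntegral ξ
  set g : k[X] := X ^ 3 - C b * X ^ 2 - C c * X - C d with hgdef
  have hgm : g.Monic := by
    rw [hgdef]; monicity!
  have hgd : g.natDegree = 3 := by
    rw [hgdef]; compute_degree!
  have hg0 : aeval ξ g = 0 := by
    rw [hgdef]; simp only [map_sub, map_mul, map_pow, aeval_X, aeval_C]; rw [h]; ring
  have hnd : (minpoly k ξ).natDegree = 3 := by
    rw [← IntermediateField.adjoin.finrank hi, hgen, IntermediateField.finrank_top', hdeg]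
  have hmin : minpoly k ξ = g :=
    (Polynomial.eq_of_monic_of_dvd_of_natDegree_le (minpoly.monic hi) hgm (minpoly.dvd k ξ hg0)
      (by rw [hgd, hnd])).symm
  have htop : Algebra.adjoin k {ξ} = ⊤ := by
    rw [← IntermediateField.adjoin_simple_toSubalgebra_of_isAlgebraic hi.isAlgebraic, hgen]
    rfl
  set Bs := PowerBasis.ofAdjoinEqTop hi htop with hBs
  have hgenB : Bs.gen = ξ := by
    rw [hBs]; exact PowerBasis.ofAdjoinEqTop_gen _ _
  have h1 := Algebra.PowerBasis.norm_gen_eq_coeff_zero_minpoly Bs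
  rw [hgenB, hmin, ← PowerBasis.natDegree_minpoly, hgenB, hnd] at h1
  rw [h1, hgdef]
  simp [coeff_X, coeff_C]
  ring

end order

end Pool.Agent.H31.Leo
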