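import Pool.Agent.H31.Leo.Tors

set_option autoImplicit false

namespace Pool.Agent.H31.Leo

open Filter Topology NumberField

variable {K : Type} [Field K] [NumberField K]

theorem nat_not_unit {q : ℕ} (hq : 1 < q) : ¬ IsUnit ((q : ℕ) : 𝓞 K) := by
  rintro ⟨u, hu⟩
  have h1 : ((u⁻¹ : (𝓞 K)ˣ) : 𝓞 K) * ((q : ℕ) : 𝓞 K) = 1 := by rw [← hu, Units.inv_mul]
  have hq0 : ((q : ℕ) : K) ≠ 0 := by exact_mod_cast (by omega : q ≠ 0)
  have h2 : (((u⁻¹ : (𝓞 K)ˣ) : 𝓞 K) : K) = algebraMap ℚ K (1 / q) := by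
    have h3 := congrArg (fun t : 𝓞 K => (t : K)) h1
    simp only [map_mul, map_one, map_natCast] at h3
    rw [map_div₀, map_one, map_natCast]
    field_simp
    exact h3
  have h3 : IsIntegral ℤ (algebraMap ℚ K (1 / q)) := by
    rw [← h2]; exact RingOfIntegers.isIntegral_coe _
  have h4 : IsIntegral ℤ (1 / q : ℚ) :=
    (isIntegral_algebraMap_iff (FaithfulSMul.algebraMap_injective ℚ K)).1 h3
  obtain ⟨z, hz⟩ := IsIntegrallyClosed.isIntegral_iff.mp h4
  have hq1 : (q : ℚ) ≠ 0 := by exact_mod_cast (by omega : q ≠ 0)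
  have h5 : (q * z : ℚ) = 1 := by
    have : (algebraMap ℤ ℚ) z = (z : ℚ) := rfl
    rw [this] at hz
    rw [hz]; field_simp
  have h6 : (q : ℤ) * z = 1 := by exact_mod_cast h5
  have h7 : (q : ℤ) ∣ 1 := ⟨z, h6.symm⟩
  have := Int.le_of_dvd (by norm_num) h7
  omega

theorem eq_zero_of_dvd (p : ℕ) [hp : Fact p.Prime] (y : 𝓞 K)
    (h : ∀ N : ℕ, ((p : ℕ) : 𝓞 K) ^ N ∣ y) : y = 0 := by
  have hne : (Ideal.span {((p : ℕ) : 𝓞 K)} : Ideal (𝓞 K)) ≠ ⊤ := by
    rw [Ne, Ideal.span_singleton_eq_top]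
    exact nat_not_unit hp.out.one_lt
  have h1 := Ideal.iInf_pow_eq_bot_of_isDomain _ hne
  have h2 : y ∈ (⨅ i : ℕ, (Ideal.span {((p : ℕ) : 𝓞 K)} : Ideal (𝓞 K)) ^ i) := by
    rw [Ideal.mem_iInf]
    intro i
    rw [Ideal.span_singleton_pow, Ideal.mem_span_singleton]
    exact h i
  rw [h1] at h2
  exact h2

theorem ev_dvd {p : ℕ} [Fact p.Prime] {c : ℕ → ℤ} {w : ℤ_[p]}
    (h : Tendsto (fun k => ((c k : ℤ) : ℤ_[p])) atTop (𝓝 w))
    (N : ℕ) : ∀ᶠ k in atTop, (p : ℤ_[p]) ^ N ∣ ((c k : ℤ) : ℤ_[p]) - w := by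
  have h1 : Tendsto (fun k => ‖((c k : ℤ) : ℤ_[p]) - w‖) atTop (𝓝 0) := by
    have := (h.sub_const w).norm
    simpa using this
  have hp0 : (0 : ℝ) < (p : ℝ) ^ (-(N : ℤ)) := by
    have : 0 < p := (Fact.out : p.Prime).pos
    positivity
  filter_upwards [h1.eventually (gt_mem_nhds hp0)] with k hk
  have h2 := (PadicInt.norm_le_pow_iff_mem_span_pow (((c k : ℤ) : ℤ_[p]) - w) N).mp hk.le
  exact Ideal.mem_span_singleton.mp h2

/-- the limit of a small sequence is zero -/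
theorem eq_zero_of_small {p : ℕ} [Fact p.Prime] {c : ℕ → ℤ} {w : ℤ_[p]}
    (h : Tendsto (fun k => ((c k : ℤ) : ℤ_[p])) atTop (𝓝 w)) (hc : Small p c) : w = 0 := by
  by_contra hw
  obtain ⟨M, hM⟩ := exists_not_dvd hw
  obtain ⟨k, h1, h2⟩ := ((ev_dvd h M).and (hc M)).exists
  exact hM ((dvd_sub_right h2).1 h1)

/-- the subgroup of units congruent to one -/
def HN (K : Type) [Field K] [NumberField K] (q : 𝓞 K) : Subgroup (𝓞 K)ˣ where
  carrier := {u | q ∣ (u : 𝓞 K) - 1}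
  one_mem' := by simp
  mul_mem' := by
    intro a b ha hb
    have h1 : ((a * b : (𝓞 K)ˣ) : 𝓞 K) - 1 = (a : 𝓞 K) * ((b : 𝓞 K) - 1) + ((a : 𝓞 K) - 1) := by
      push_cast; ring
    show q ∣ _
    rw [h1]
    exact dvd_add (Dvd.dvd.mul_left hb _) ha
  inv_mem' := by
    intro a ha
    have := unit_zpow_dvd q a ha (-1)
    rwa [zpow_neg_one] at this

theorem mem_HN (q : 𝓞 K) (u : (𝓞 K)ˣ) : u ∈ HN K q ↔ q ∣ (u : 𝓞 K) - 1 := Iff.rfl

theorem exists_pow (p : ℕ) [hp : Fact p.Prime] (u : (𝓞 K)ˣ) :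
    ∃ n : ℕ, 0 < n ∧ ((p : ℕ) : 𝓞 K) ∣ ((u ^ n : (𝓞 K)ˣ) : 𝓞 K) - 1 := by
  have hp0 : ((p : ℕ) : 𝓞 K) ≠ 0 := by exact_mod_cast hp.out.ne_zero
  have hfin : Finite (𝓞 K ⧸ (Ideal.span {((p : ℕ) : 𝓞 K)} : Ideal (𝓞 K))) := by
    apply Ring.HasFiniteQuotients.finiteQuotient
    rw [Ne, Ideal.span_singleton_eq_bot]
    exact hp0
  set v := Units.map (Ideal.Quotient.mk (Ideal.span {((p : ℕ) : 𝓞 K)})).toMonoidHom u with hv
  refine ⟨orderOf v, orderOf_pos v, ?_⟩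
  have h1 : v ^ orderOf v = 1 := pow_orderOf_eq_one v
  rw [hv, ← map_pow, Units.ext_iff] at h1
  rw [← Ideal.mem_span_singleton, ← Ideal.Quotient.mk_eq_mk_iff_sub_mem]
  exact h1

theorem leopoldt_rank_le_one (p : ℕ) [hp : Fact p.Prime] (hr : Units.rank K ≤ 1) :
    Leopoldt K p := by
  rcases Nat.lt_or_ge (Units.rank K) 1 with h0 | h1
  · exact leopoldt_of (r := 0) (by omega) p (fun i => i.elim0) fun c w _ _ => funext fun i => i.elim0
  · have hr1 : Units.rank K = 1 := le_antisymm hr h1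
    obtain ⟨f, hf⟩ := exists_linearIndependent_of_le_finrank (R := ℤ) (M := Additive (𝓞 K)ˣ) (n := 1)
      (by rw [Units.finrank_eq, hr1])
    set η : (𝓞 K)ˣ := Additive.toMul (f 0) with hη
    have hη1 : ∀ n : ℕ, 0 < n → η ^ n ≠ 1 := by
      intro n hn h
      rw [Fintype.linearIndependent_iff] at hf
      have h2 := hf (fun _ => (n : ℤ)) (by
        rw [Fin.sum_univ_one, natCast_zsmul]
        apply Additive.toMul.injective
        rw [toMul_nsmul, toMul_zero]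
        exact h) 0
      have : n = 0 := by exact_mod_cast h2
      omega
    refine leopoldt_of hr1 p (fun _ => η) fun c w hlim hrel => ?_
    funext i
    have hi : i = 0 := Subsingleton.elim _ _
    subst hi
    by_contra hw
    obtain ⟨M, hM⟩ := exists_not_dvd hw
    obtain ⟨n, hn, hpn⟩ := exists_pow p η
    have key : ∀ N : ℕ, ((p : ℕ) : 𝓞 K) ^ N ∣ (((η ^ n) ^ (p ^ M) : (𝓞 K)ˣ) : 𝓞 K) - 1 := by
      intro N
      obtain ⟨k, hk1, hk2⟩ := ((ev_dvd (hlim 0) M).and (hrel N)).exists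
      have hck : ¬ (p : ℤ) ^ M ∣ c k 0 := by
        intro hd
        apply hM
        have h3 : (p : ℤ_[p]) ^ M ∣ ((c k 0 : ℤ) : ℤ_[p]) := by
          obtain ⟨t, ht⟩ := hd
          rw [ht]
          exact ⟨t, by push_cast; rfl⟩
        exact (dvd_sub_right h3).1 hk1
      rw [← mem_HN]
      have h4 : (η ^ n) ^ (p ^ N) ∈ HN K (((p : ℕ) : 𝓞 K) ^ N) := by
        rw [mem_HN]
        have h := dvd_sub_pow_of_dvd_sub (p := p) hpn N
        rw [one_pow] at h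
        rw [Units.val_pow_eq_pow_val]
        exact dvd_trans (pow_dvd_pow _ (by omega)) h
      have h5 : (η ^ n) ^ (c k 0) ∈ HN K (((p : ℕ) : 𝓞 K) ^ N) := by
        rw [← zpow_natCast, ← zpow_mul, mul_comm, zpow_mul]
        apply Subgroup.zpow_mem
        rw [mem_HN]
        simpa using hk2
      -- Bezout
      set g := Int.gcd (c k 0) ((p : ℤ) ^ N) with hg
      have h6 : (η ^ n) ^ (g : ℤ) ∈ HN K (((p : ℕ) : 𝓞 K) ^ N) := by
        rw [hg, Int.gcd_eq_gcd_ab, zpow_add, zpow_mul, zpow_mul]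
        refine Subgroup.mul_mem _ (Subgroup.zpow_mem _ h5 _) (Subgroup.zpow_mem _ ?_ _)
        rw [show ((p : ℤ) ^ N) = ((p ^ N : ℕ) : ℤ) by push_cast; rfl, zpow_natCast]
        exact h4
      have h7 : g ∣ p ^ N := by
        have := Int.gcd_dvd_right (c k 0) ((p : ℤ) ^ N)
        have h8 : ((g : ℕ) : ℤ) ∣ ((p ^ N : ℕ) : ℤ) := by push_cast; exact this
        exact_mod_cast h8
      obtain ⟨v, -, hv⟩ := (Nat.dvd_prime_pow hp.out).1 h7
      have hvM : v < M := by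
        by_contra hge
        apply hck
        have h8 : ((g : ℕ) : ℤ) ∣ c k 0 := Int.gcd_dvd_left _ _
        rw [hv] at h8
        push_cast at h8
        exact (pow_dvd_pow _ (by omega)).trans h8
      have h9 : (η ^ n) ^ (p ^ M) = ((η ^ n) ^ (g : ℤ)) ^ (p ^ (M - v)) := by
        rw [zpow_natCast, hv, ← pow_mul (η ^ n) (p ^ v), ← pow_add]
        congr 2
        omega
      rw [h9]
      exact Subgroup.pow_mem _ h6 _
    have h10 := eq_zero_of_dvd p _ key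
    have h11 : (η ^ n) ^ (p ^ M) = 1 := Units.ext (sub_eq_zero.1 h10)
    rw [← pow_mul] at h11
    exact hη1 _ (Nat.mul_pos hn (pow_pos hp.out.pos _)) h11

/-- the criterion for two units -/
theorem leopoldt_of_pair (p : ℕ) [hp : Fact p.Prime] (hr : Units.rank K = 2) (E H : (𝓞 K)ˣ)
    (h : ∀ m n : ℕ → ℤ, RelK p E H m n → Small p m ∧ Small p n) : Leopoldt K p := by
  refine leopoldt_of hr p ![E, H] fun c w hlim hrel => ?_
  have h1 := h (fun k => c k 0) (fun k => c k 1) (fun N => by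
    filter_upwards [hrel N] with k hk
    rw [Fin.prod_univ_two] at hk
    exact hk)
  funext i
  fin_cases i
  · exact eq_zero_of_small (hlim 0) h1.1
  · exact eq_zero_of_small (hlim 1) h1.2

end Pool.Agent.H31.Leo
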