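import Pool.Agent.H31.Leo.Core

set_option autoImplicit false

namespace Pool.Agent.H31.Leo

open Filter Topology

section gen

variable {R : Type} [CommRing R] {b c d : R}

/-- `(1 + 4 τ s)^(2^j) = 1 + 2^j (4 τ) (seq2 τ s j)` -/
def seq2 (τ : R) (s : Cub R b c d) : ℕ → Cub R b c d
  | 0 => s
  | j + 1 => seq2 τ s j + Cub.of (2 ^ (j + 1) * τ) * (seq2 τ s j * seq2 τ s j)

/-- `(1 + 3 τ s)^(3^j) = 1 + 3^j (3 τ) (seq3 τ s j)` -/
def seq3 (τ : R) (s : Cub R b c d) : ℕ → Cub R b c d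
  | 0 => s
  | j + 1 => seq3 τ s j + Cub.of (3 ^ (j + 1) * τ) * (seq3 τ s j * seq3 τ s j) +
      Cub.of (3 ^ (2 * j + 1) * τ ^ 2) * (seq3 τ s j * seq3 τ s j * seq3 τ s j)

theorem seq2_spec (τ : R) (s X : Cub R b c d) (h : X = 1 + Cub.of (4 * τ) * s) (j : ℕ) :
    X ^ (2 ^ j) = 1 + Cub.of (2 ^ j) * (Cub.of (4 * τ) * seq2 τ s j) := by
  induction j with
  | zero => simp [seq2, h]
  | succ j ih =>
    rw [pow_succ, pow_mul, ih, seq2]
    simp only [map_mul, map_pow, map_ofNat]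
    ring

theorem seq3_spec (τ : R) (s X : Cub R b c d) (h : X = 1 + Cub.of (3 * τ) * s) (j : ℕ) :
    X ^ (3 ^ j) = 1 + Cub.of (3 ^ j) * (Cub.of (3 * τ) * seq3 τ s j) := by
  induction j with
  | zero => simp [seq3, h]
  | succ j ih =>
    rw [pow_succ, pow_mul, ih, seq3]
    simp only [map_mul, map_pow, map_ofNat]
    ring

theorem seq2_stable (τ : R) (s : Cub R b c d) (J j : ℕ) (h : J ≤ j) :
    Cub.of (2 ^ (J + 1)) ∣ seq2 τ s j - seq2 τ s J := by
  induction j, h using Nat.le_induction with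
  | base => simp
  | succ j hj ih =>
    have h1 : seq2 τ s (j + 1) - seq2 τ s J = (seq2 τ s j - seq2 τ s J) +
        Cub.of (2 ^ (j + 1) * τ) * (seq2 τ s j * seq2 τ s j) := by
      rw [seq2]; ring
    rw [h1]
    refine dvd_add ih (Dvd.dvd.mul_right ?_ _)
    exact map_dvd _ (Dvd.dvd.mul_right (pow_dvd_pow _ (by omega)) _)

theorem seq3_stable (τ : R) (s : Cub R b c d) (J j : ℕ) (h : J ≤ j) :
    Cub.of (3 ^ (J + 1)) ∣ seq3 τ s j - seq3 τ s J := by
  induction j, h using Nat.le_induction with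
  | base => simp
  | succ j hj ih =>
    have h1 : seq3 τ s (j + 1) - seq3 τ s J = (seq3 τ s j - seq3 τ s J) +
        (Cub.of (3 ^ (j + 1) * τ) * (seq3 τ s j * seq3 τ s j) +
        Cub.of (3 ^ (2 * j + 1) * τ ^ 2) * (seq3 τ s j * seq3 τ s j * seq3 τ s j)) := by
      rw [seq3]; ring
    rw [h1]
    refine dvd_add ih (dvd_add (Dvd.dvd.mul_right ?_ _) ?_)
    · exact map_dvd _ (Dvd.dvd.mul_right (pow_dvd_pow _ (by omega)) _)
    · by_cases hj0 : j = 0
      · -- then `J = 0`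
        have : J = 0 := by omega
        subst this hj0
        refine Dvd.dvd.mul_right (map_dvd _ (Dvd.dvd.mul_right (pow_dvd_pow _ (by omega)) _)) _
      · exact Dvd.dvd.mul_right (map_dvd _ (Dvd.dvd.mul_right (pow_dvd_pow _ (by omega)) _)) _

/-- if the elements are congruent modulo `q` then so are the determinants -/
theorem det_congr (q : R) {u v u' v' : Cub R b c d} (h : Cub.of q ∣ u' - u)
    (h' : Cub.of q ∣ v' - v) : q ∣ det u' v' - det u v := by
  obtain ⟨-, h1, h2⟩ := (Cub.of_dvd_iff _ _).1 h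
  obtain ⟨-, h3, h4⟩ := (Cub.of_dvd_iff _ _).1 h'
  rw [Cub.sub_y] at h1 h3
  rw [Cub.sub_z] at h2 h4
  have e : det u' v' - det u v = (u'.y - u.y) * v'.z + u.y * (v'.z - v.z) -
      ((u'.z - u.z) * v'.y + u.z * (v'.y - v.y)) := by
    unfold det; ring
  rw [e]
  exact dvd_sub (dvd_add (h1.mul_right _) (h4.mul_left _))
    (dvd_add (h2.mul_right _) (h3.mul_left _))

end gen

section map

variable {R R' : Type} [CommRing R] [CommRing R'] {b c d : R} {b' c' d' : R'}
  (f : R →+* R') (hb : f b = b') (hc : f c = c') (hd : f d = d')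

theorem map_seq2 (τ : R) (s : Cub R b c d) (j : ℕ) :
    Cub.map f hb hc hd (seq2 τ s j) = seq2 (f τ) (Cub.map f hb hc hd s) j := by
  induction j with
  | zero => rfl
  | succ j ih =>
    simp only [seq2, map_add, map_mul, map_pow, map_ofNat, Cub.map_of, ih]

theorem map_seq3 (τ : R) (s : Cub R b c d) (j : ℕ) :
    Cub.map f hb hc hd (seq3 τ s j) = seq3 (f τ) (Cub.map f hb hc hd s) j := by
  induction j with
  | zero => rfl
  | succ j ih =>
    simp only [seq3, map_add, map_mul, map_pow, map_ofNat, Cub.map_of, ih]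

theorem map_det (u v : Cub R b c d) :
    f (det u v) = det (Cub.map f hb hc hd u) (Cub.map f hb hc hd v) := by
  unfold det
  simp

end map

end Pool.Agent.H31.Leo
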