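import Pool.Agent.H31.Leo.Cubic

set_option autoImplicit false

namespace Pool.Agent.H31.Leo

open Filter Topology NumberField

variable {k K : Type} [Field k] [NumberField k] [Field K] [NumberField K] [Algebra k K]

theorem rank_sextic (hk : Units.rank k = 0) (hk2 : Module.finrank ℚ k = 2)
    (hdeg : Module.finrank k K = 3) : Units.rank K = 2 := by
  classical
  have h1 := InfinitePlace.card_add_two_mul_card_eq_rank k
  have h2 := InfinitePlace.card_eq_nrRealPlaces_add_nrComplexPlaces k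
  have hrk : Units.rank k = Fintype.card (InfinitePlace k) - 1 := rfl
  have h0 : 0 < Fintype.card (InfinitePlace k) := Fintype.card_pos
  have hr : InfinitePlace.nrRealPlaces k = 0 := by omega
  have hrK : InfinitePlace.nrRealPlaces K = 0 := by
    by_contra hne
    have h3 : 0 < InfinitePlace.nrRealPlaces K := Nat.pos_of_ne_zero hne
    unfold InfinitePlace.nrRealPlaces at h3 hr
    obtain ⟨w, hw⟩ := Fintype.card_pos_iff.1 h3
    have h4 := hw.comap (algebraMap k K)
    rw [Fintype.card_eq_zero_iff] at hr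
    exact hr.elim ⟨_, h4⟩
  have h3 : Module.finrank ℚ K = 6 := by
    rw [← Module.finrank_mul_finrank ℚ k K, hk2, hdeg]
  have h4 := InfinitePlace.card_add_two_mul_card_eq_rank K
  have h5 := InfinitePlace.card_eq_nrRealPlaces_add_nrComplexPlaces K
  have h6 : Units.rank K = Fintype.card (InfinitePlace K) - 1 := rfl
  omega

/-- an element which satisfies a monic cubic equation over the rational numbers does not generate a
field of degree greater than three -/
theorem not_gen_of_cubic (hdeg : 3 < Module.finrank ℚ K) (ξ : K) (b : ℚ)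
    (h : ξ ^ 3 = algebraMap ℚ K b * ξ ^ 2 + -(algebraMap ℚ K b + 1) * ξ + 1) :
    IntermediateField.adjoin ℚ {ξ} ≠ ⊤ := by
  intro htop
  have hi : IsIntegral ℚ ξ := Algebra.IsIntegral.isIntegral ξ
  have hnd : (minpoly ℚ ξ).natDegree = Module.finrank ℚ K := by
    rw [← IntermediateField.adjoin.finrank hi, htop, IntermediateField.finrank_top']
  set g : Polynomial ℚ := Polynomial.X ^ 3 - Polynomial.C b * Polynomial.X ^ 2 +
    Polynomial.C (b + 1) * Polynomial.X - 1 with hg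
  have hgd : g.natDegree = 3 := by rw [hg]; compute_degree!
  have hg0 : g ≠ 0 := by
    intro h0
    rw [h0] at hgd
    simp at hgd
  have h1 : Polynomial.aeval ξ g = 0 := by
    rw [hg]
    simp only [map_sub, map_add, map_mul, map_pow, Polynomial.aeval_X, Polynomial.aeval_C, map_one]
    rw [h]; ring
  have h2 := Polynomial.natDegree_le_of_dvd (minpoly.dvd ℚ ξ h1) hg0
  rw [hnd, hgd] at h2
  omega

/-- **Leopoldt's conjecture at `2` and `3` for cubic extensions of imaginary quadratic fields.** -/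
theorem sextic (p : ℕ) [hp : Fact p.Prime] (h23 : p = 2 ∨ p = 3) (hk : Units.rank k = 0)
    (hk2 : Module.finrank ℚ k = 2) (φ : 𝓞 k →+* ℤ_[p]) (hdeg : Module.finrank k K = 3)
    (E H : (𝓞 K)ˣ) (hEH : (E : 𝓞 K) + H = 1)
    (hgen : IntermediateField.adjoin ℚ {((E : 𝓞 K) : K)} = ⊤) (h7 : ∀ x : K, x ^ 7 = 1 → x = 1) :
    Leopoldt K p := by
  have hr2 := rank_sextic hk hk2 hdeg
  have hu : ∀ u : (𝓞 k)ˣ, (u : 𝓞 k) = 1 ∨ (u : 𝓞 k) = -1 := units_k h23 hk φ
  obtain ⟨E', H', hEH', hg, hE', hN⟩ := normalise hdeg hu E H hEH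
  rcases hN with ⟨hN, hN'⟩ | ⟨hN, hN'⟩
  swap
  · exact leopoldt_of_pair p hr2 E' H' (typeB h23 φ (phi_inj φ) E' H' hEH' hg hN hN')
  obtain ⟨b, hb, himp⟩ := typeA h23 φ (phi_inj φ) E' H' hEH' hg hN hN'
  by_cases hz : ∀ i : ℕ, ev (dat i).t b ≠ 0
  · exact leopoldt_of_pair p hr2 E' H' (himp hz)
  exfalso
  push Not at hz
  obtain ⟨i, hi⟩ := hz
  have hdegK : Module.finrank ℚ K = 6 := by
    rw [← Module.finrank_mul_finrank ℚ k K, hk2, hdeg]
  have hinvK : ∀ U : (𝓞 K)ˣ, (((U⁻¹ : (𝓞 K)ˣ) : 𝓞 K) : K) = (((U : 𝓞 K) : K))⁻¹ := by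
    intro U
    symm
    apply inv_eq_of_mul_eq_one_right
    have h4 : (U : 𝓞 K) * ((U⁻¹ : (𝓞 K)ˣ) : 𝓞 K) = 1 := Units.mul_inv U
    have h5 := congrArg (algebraMap (𝓞 K) K) h4
    rw [map_mul, map_one] at h5
    exact h5
  -- `E'` generates `K` over `ℚ`
  have hgen' : IntermediateField.adjoin ℚ {((E' : 𝓞 K) : K)} = ⊤ := by
    rw [eq_top_iff, ← hgen, IntermediateField.adjoin_simple_le_iff]
    have hm : ((E' : 𝓞 K) : K) ∈ IntermediateField.adjoin ℚ {((E' : 𝓞 K) : K)} :=
      IntermediateField.mem_adjoin_simple_self ℚ _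
    rcases hE' with h | h | h
    · rw [← h]; exact hm
    · have h1 : (((E : 𝓞 K) : K)) = (((E' : 𝓞 K) : K))⁻¹ := by
        rw [h, hinvK, inv_inv]
      rw [h1]
      exact inv_mem hm
    · have h1 : (((H : 𝓞 K) : K)) = (((E' : 𝓞 K) : K))⁻¹ := by
        rw [h, hinvK, inv_inv]
      have h2 : (((E : 𝓞 K) : K)) = 1 - ((H : 𝓞 K) : K) := by
        have h3 : (E : 𝓞 K) = 1 - H := by rw [← hEH]; ring
        have h4 := congrArg (algebraMap (𝓞 K) K) h3
        rw [map_sub, map_one] at h4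
        exact h4
      rw [h2, h1]
      exact sub_mem (one_mem _) (inv_mem hm)
  have hK : ((E' : 𝓞 K) : K) ^ 3 = algebraMap k K (b : k) * ((E' : 𝓞 K) : K) ^ 2 +
      -(algebraMap k K (b : k) + 1) * ((E' : 𝓞 K) : K) + 1 := by
    have := congrArg (fun t : 𝓞 K => (t : K)) hb
    simp only [map_add, map_mul, map_pow, map_neg, map_one] at this
    exact this
  have key : ∀ q : ℚ, algebraMap (𝓞 k) k b = algebraMap ℚ k q → False := by
    intro q hq
    refine not_gen_of_cubic (by rw [hdegK]; norm_num) ((E' : 𝓞 K) : K) q ?_ hgen'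
    have h1 : algebraMap k K (b : k) = algebraMap ℚ K q := by
      have h2 : algebraMap k K (algebraMap ℚ k q) = algebraMap ℚ K q :=
        (IsScalarTower.algebraMap_apply ℚ k K q).symm
      rw [← h2]
      exact congrArg (algebraMap k K) hq
    rw [← h1]
    exact hK
  rcases ev_dat_zero hi with h | h | h | h | h | h | h
  · exact key 0 (by rw [h, map_zero, map_zero])
  · exact key 1 (by rw [h, map_one, map_one])
  · exact key 2 (by rw [h, map_ofNat, map_ofNat])
  · exact key 3 (by rw [h, map_ofNat, map_ofNat])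
  · exact key 4 (by rw [h, map_ofNat, map_ofNat])
  · exact key (-1) (by rw [h, map_neg, map_neg, map_one, map_one])
  · -- the seventh roots of unity
    have hs := dat_spec b 6
    have ht : ev (dat 6).t b = 0 := by
      simp only [dat, ev, List.foldr]
      push_cast
      linear_combination h
    rw [ht, map_zero, zero_mul, add_zero] at hs
    have hs' : (LA b) ^ (dat 6).xe * (MA b) ^ (dat 6).ye = 1 := Units.ext hs
    have e1 : Units.map (psi (E' : 𝓞 K) hb : Cub (𝓞 k) b (-(b + 1)) 1 →* 𝓞 K) (LA b) = E' :=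
      Units.ext (psi_L _ hb)
    have e2 : Units.map (psi (E' : 𝓞 K) hb : Cub (𝓞 k) b (-(b + 1)) 1 →* 𝓞 K) (MA b) = H' := by
      apply Units.ext
      show psi (E' : 𝓞 K) hb ((MA b : (RA (𝓞 k) b)ˣ) : RA (𝓞 k) b) = H'
      rw [MA_val, map_sub, map_one, psi_L, ← hEH']; ring
    have h3 := congrArg (Units.map (psi (E' : 𝓞 K) hb : Cub (𝓞 k) b (-(b + 1)) 1 →* 𝓞 K)) hs'
    rw [map_mul, map_zpow, map_zpow, e1, e2, map_one] at h3
    have h4 : (E' * H'⁻¹) ^ 7 = 1 := by
      rw [← h3]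
      simp only [dat]
      rw [mul_pow, show (-7 : ℤ) = -((7 : ℕ) : ℤ) by norm_num, zpow_neg, zpow_natCast, inv_pow]
      rfl
    have h5 : (((E' * H'⁻¹ : (𝓞 K)ˣ) : 𝓞 K) : K) ^ 7 = 1 := by
      rw [← map_pow, ← Units.val_pow_eq_pow_val, h4]; simp
    have h6 := h7 _ h5
    have h8 : ((E' * H'⁻¹ : (𝓞 K)ˣ) : 𝓞 K) = 1 := RingOfIntegers.ext (by rw [h6]; rfl)
    have h9 : E' = H' := by
      have h10 : E' * H'⁻¹ = 1 := Units.ext h8
      rw [mul_inv_eq_one] at h10
      exact h10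
    rw [← h9] at hEH'
    apply two_not_unit (E'⁻¹)
    have h11 : ((E'⁻¹ : (𝓞 K)ˣ) : 𝓞 K) * (E' : 𝓞 K) = 1 := Units.inv_mul E'
    linear_combination (-((E'⁻¹ : (𝓞 K)ˣ) : 𝓞 K)) * hEH' + 2 * h11

end Pool.Agent.H31.Leo
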