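import Pool.Agent.H31.Leo.Order

set_option autoImplicit false

namespace Pool.Agent.H31.Leo

open Filter Topology NumberField Polynomial

section transfer

variable {k K : Type} [Field k] [NumberField k] [Field K] [NumberField K] [Algebra k K]

/-- the units `E^(m_i) H^(n_i)` tend to `1` -/
def RelK (p : ℕ) (E H : (𝓞 K)ˣ) (m n : ℕ → ℤ) : Prop :=
  ∀ N : ℕ, ∀ᶠ i in atTop, ((p : ℕ) : 𝓞 K) ^ N ∣ ((E ^ m i * H ^ n i : (𝓞 K)ˣ) : 𝓞 K) - 1

theorem transfer {p : ℕ} [hp : Fact p.Prime] {b c d : 𝓞 k} {ε : 𝓞 K} (hg : Gen k ε)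
    (h : ε ^ 3 = algebraMap (𝓞 k) (𝓞 K) b * ε ^ 2 + algebraMap (𝓞 k) (𝓞 K) c * ε +
      algebraMap (𝓞 k) (𝓞 K) d) (φ : 𝓞 k →+* ℤ_[p]) (hφ : Function.Injective φ)
    {b' c' d' : ℤ_[p]} (hb : φ b = b') (hc : φ c = c') (hd : φ d = d')
    (U V : (Cub (𝓞 k) b c d)ˣ) (E H : (𝓞 K)ˣ) (hU : psi ε h U = E) (hV : psi ε h V = H)
    (U' V' : (Cub ℤ_[p] b' c' d')ˣ) (hU' : Cub.map φ hb hc hd U = U')
    (hV' : Cub.map φ hb hc hd V = V') (m n : ℕ → ℤ) (hrel : RelK p E H m n) : Rel U' V' m n := by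
  obtain ⟨m₀, hm₀, hm⟩ := exists_mul hg h
  have hm' : φ m₀ ≠ 0 := by
    intro h0
    exact hm₀ (hφ (by rw [h0, map_zero]))
  obtain ⟨M, hM⟩ := exists_not_dvd hm'
  have e1 : Units.map (psi ε h : Cub (𝓞 k) b c d →* 𝓞 K) U = E := Units.ext hU
  have e2 : Units.map (psi ε h : Cub (𝓞 k) b c d →* 𝓞 K) V = H := Units.ext hV
  have e3 : Units.map (Cub.map φ hb hc hd : Cub (𝓞 k) b c d →* Cub ℤ_[p] b' c' d') U = U' :=
    Units.ext hU'
  have e4 : Units.map (Cub.map φ hb hc hd : Cub (𝓞 k) b c d →* Cub ℤ_[p] b' c' d') V = V' :=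
    Units.ext hV'
  intro N
  filter_upwards [hrel (N + M)] with i hi
  set ρ : (Cub (𝓞 k) b c d)ˣ := U ^ m i * V ^ n i with hρ
  have h1 : psi ε h (ρ : Cub (𝓞 k) b c d) = ((E ^ m i * H ^ n i : (𝓞 K)ˣ) : 𝓞 K) := by
    rw [← e1, ← e2, ← map_zpow, ← map_zpow, ← map_mul]
    rfl
  have h2 : Cub.map φ hb hc hd (ρ : Cub (𝓞 k) b c d) =
      ((U' ^ m i * V' ^ n i : (Cub ℤ_[p] b' c' d')ˣ) : Cub ℤ_[p] b' c' d') := by
    rw [← e3, ← e4, ← map_zpow, ← map_zpow, ← map_mul]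
    rfl
  rw [← h1] at hi
  obtain ⟨x, hx⟩ := hi
  obtain ⟨y, hy⟩ := hm x
  have h3 : Cub.of m₀ * ((ρ : Cub (𝓞 k) b c d) - 1) = Cub.of ((p : 𝓞 k) ^ (N + M)) * y := by
    apply psi_inj hg h
    rw [map_mul, map_mul, psi_of, psi_of, map_sub, map_one, hx, hy, map_pow, map_natCast]
    ring
  have h4 := congrArg (Cub.map φ hb hc hd) h3
  rw [map_mul, map_mul, map_sub, map_one, h2, Cub.map_of, Cub.map_of, map_pow, map_natCast] at h4
  set w := ((U' ^ m i * V' ^ n i : (Cub ℤ_[p] b' c' d')ˣ) : Cub ℤ_[p] b' c' d') - 1 with hw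
  rw [Cub.of_dvd_iff]
  have hx' := congrArg Cub.x h4
  have hy' := congrArg Cub.y h4
  have hz' := congrArg Cub.z h4
  rw [Cub.of_mul_x, Cub.of_mul_x] at hx'
  rw [Cub.of_mul_y, Cub.of_mul_y] at hy'
  rw [Cub.of_mul_z, Cub.of_mul_z] at hz'
  refine ⟨dvd_of_mul M N _ _ hM ?_, dvd_of_mul M N _ _ hM ?_, dvd_of_mul M N _ _ hM ?_⟩
  · rw [mul_comm, hx']; exact Dvd.intro _ rfl
  · rw [mul_comm, hy']; exact Dvd.intro _ rfl
  · rw [mul_comm, hz']; exact Dvd.intro _ rfl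

/-- the norms of `ε` and `1 - ε` -/
theorem norms {b c d : 𝓞 k} {ε : 𝓞 K} (hg : Gen k ε)
    (h : ε ^ 3 = algebraMap (𝓞 k) (𝓞 K) b * ε ^ 2 + algebraMap (𝓞 k) (𝓞 K) c * ε +
      algebraMap (𝓞 k) (𝓞 K) d) :
    RingOfIntegers.norm k ε = d ∧ RingOfIntegers.norm k (1 - ε) = 1 - b - c - d := by
  have hK : (ε : K) ^ 3 = algebraMap k K (b : k) * (ε : K) ^ 2 + algebraMap k K (c : k) * (ε : K) +
      algebraMap k K (d : k) := by
    have := congrArg (fun t : 𝓞 K => (t : K)) h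
    simp only [map_add, map_mul, map_pow] at this
    exact this
  constructor
  · apply RingOfIntegers.ext
    rw [RingOfIntegers.coe_norm]
    exact norm_gen hg.deg hg.gen _ _ _ hK
  · apply RingOfIntegers.ext
    rw [RingOfIntegers.coe_norm]
    have e : (((1 : 𝓞 K) - ε : 𝓞 K) : K) = 1 - (ε : K) := by simp
    rw [e]
    have hgen : IntermediateField.adjoin k {(1 - (ε : K))} = ⊤ := by
      rw [eq_top_iff, ← hg.gen, IntermediateField.adjoin_simple_le_iff]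
      have h1 : (1 - (ε : K)) ∈ IntermediateField.adjoin k {(1 - (ε : K))} :=
        IntermediateField.mem_adjoin_simple_self k _
      have h2 := sub_mem (one_mem (IntermediateField.adjoin k {(1 - (ε : K))})) h1
      simpa using h2
    have h3 := norm_gen hg.deg hgen (3 - (b : k)) (-3 + 2 * (b : k) + (c : k))
      (1 - (b : k) - (c : k) - (d : k)) (by
        simp only [map_sub, map_add, map_mul, map_neg, map_ofNat, map_one]
        linear_combination -hK)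
    rw [h3]
    simp

end transfer

section AB

variable {k K : Type} [Field k] [NumberField k] [Field K] [NumberField K] [Algebra k K]

theorem typeA {p : ℕ} [hp : Fact p.Prime] (h23 : p = 2 ∨ p = 3) (φ : 𝓞 k →+* ℤ_[p])
    (hφ : Function.Injective φ) (E H : (𝓞 K)ˣ) (hEH : (E : 𝓞 K) + H = 1)
    (hg : Gen k (E : 𝓞 K)) (hN : RingOfIntegers.norm k (E : 𝓞 K) = 1)
    (hN' : RingOfIntegers.norm k (H : 𝓞 K) = 1) :
    ∃ b : 𝓞 k, (E : 𝓞 K) ^ 3 = algebraMap (𝓞 k) (𝓞 K) b * (E : 𝓞 K) ^ 2 +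
      algebraMap (𝓞 k) (𝓞 K) (-(b + 1)) * (E : 𝓞 K) + algebraMap (𝓞 k) (𝓞 K) 1 ∧
      ((∀ i : ℕ, ev (dat i).t b ≠ 0) → ∀ m n : ℕ → ℤ, RelK p E H m n → Small p m ∧ Small p n) := by
  obtain ⟨b, c, d, h⟩ := exists_coeff hg
  obtain ⟨h1, h2⟩ := norms hg h
  have hH : (H : 𝓞 K) = 1 - E := by rw [← hEH]; ring
  rw [hN] at h1
  rw [← hH, hN'] at h2
  obtain rfl : c = -(b + 1) := by rw [← h1] at h2; linear_combination h2
  obtain rfl : d = 1 := h1.symm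
  refine ⟨b, h, fun hz m n hrel => ?_⟩
  have hzφ : ∀ i : ℕ, ev (dat i).t (φ b) ≠ 0 := by
    intro i h0
    rw [← map_ev] at h0
    exact hz i (hφ (by rw [h0, map_zero]))
  have hR : Rel (LA (φ b)) (MA (φ b)) m n := by
    refine transfer hg h φ hφ (b' := φ b) (c' := -(φ b + 1)) (d' := 1) rfl (by simp) (map_one φ)
      (LA b) (MA b) E H ?_ ?_ _ _ ?_ ?_ m n hrel
    · rw [LA_val, psi_L]
    · rw [MA_val, map_sub, map_one, psi_L, hH]
    · rw [LA_val, LA_val, Cub.map_L]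
    · rw [MA_val, MA_val, map_sub, map_one, Cub.map_L]
  rcases h23 with rfl | rfl
  · exact indA2 (φ b) hzφ m n hR
  · exact indA3 (φ b) hzφ m n hR

theorem typeB {p : ℕ} [hp : Fact p.Prime] (h23 : p = 2 ∨ p = 3) (φ : 𝓞 k →+* ℤ_[p])
    (hφ : Function.Injective φ) (E H : (𝓞 K)ˣ) (hEH : (E : 𝓞 K) + H = 1)
    (hg : Gen k (E : 𝓞 K)) (hN : RingOfIntegers.norm k (E : 𝓞 K) = -1)
    (hN' : RingOfIntegers.norm k (H : 𝓞 K) = -1) :
    ∀ m n : ℕ → ℤ, RelK p E H m n → Small p m ∧ Small p n := by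
  obtain ⟨b, c, d, h⟩ := exists_coeff hg
  obtain ⟨h1, h2⟩ := norms hg h
  have hH : (H : 𝓞 K) = 1 - E := by rw [← hEH]; ring
  rw [hN] at h1
  rw [← hH, hN'] at h2
  obtain rfl : c = 3 - b := by rw [← h1] at h2; linear_combination h2
  obtain rfl : d = -1 := h1.symm
  intro m n hrel
  have hR : Rel (LB (φ b)) (MB (φ b)) m n := by
    refine transfer hg h φ hφ (b' := φ b) (c' := 3 - φ b) (d' := -1) rfl
      (by rw [map_sub, map_ofNat]) (by simp)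
      (LB b) (MB b) E H ?_ ?_ _ _ ?_ ?_ m n hrel
    · rw [LB_val, psi_L]
    · rw [MB_val, map_sub, map_one, psi_L, hH]
    · rw [LB_val, LB_val, Cub.map_L]
    · rw [MB_val, MB_val, map_sub, map_one, Cub.map_L]
  rcases h23 with rfl | rfl
  · exact indB2 (φ b) m n hR
  · exact indB3 (φ b) m n hR

end AB

end Pool.Agent.H31.Leo
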